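import Pool.Agent.W_2414c2_h89.Slide

/-!
# MP_2414c2_co : the main theorem
-/

set_option autoImplicit false

open Finset
open scoped Classical

namespace HM89

variable {V : Type*} {G : SimpleGraph V} {k : ℕ} {W : Finset V}

/-- no induced claw together with an isolated vertex -/
def NoClawK1 (G : SimpleGraph V) : Prop := ∀ v x y z a : V, Claw G v x y z → ¬ An G v x y z a

theorem MC.noclaw_of_clawK1 (h : MC G k W) (hf : NoClawK1 G) (h5 : NoC5 G) {v x y z : V}
    (hv : v ∈ W) (hx : x ∈ W) (hy : y ∈ W) (hz : z ∈ W) (hc : Claw G v x y z) : False := by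
  obtain ⟨K, hKW, hK, hKk, hK0⟩ := h.star hv
  have hvK : ∀ p ∈ K, ¬ G.Adj v p := fun p hp => (hK0 p hp).2
  have hxy := nst h5 hK hvK hc.vx hc.vy hc.xy
  have hxz := nst h5 hK hvK hc.vx hc.vz hc.xz
  have hyz := nst h5 hK hvK hc.vy hc.vz hc.yz
  obtain ⟨u, hu, hux, huy, huz⟩ : ∃ u ∈ W, (∀ p ∈ K, G.Adj x p → G.Adj u p) ∧
      (∀ p ∈ K, G.Adj y p → G.Adj u p) ∧ (∀ p ∈ K, G.Adj z p → G.Adj u p) := by
    rcases hxy with h1 | h1
    · rcases hyz with h2 | h2
      · exact ⟨z, hz, fun p hp h3 => h2 p hp (h1 p hp h3), h2, fun _ _ h3 => h3⟩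
      · exact ⟨y, hy, h1, fun _ _ h3 => h3, h2⟩
    · rcases hxz with h2 | h2
      · exact ⟨z, hz, h2, fun p hp h3 => h2 p hp (h1 p hp h3), fun _ _ h3 => h3⟩
      · exact ⟨x, hx, fun _ _ h3 => h3, h1, h2⟩
  obtain ⟨a, ha, ha'⟩ := h.nfull hu hKW hK hKk
  exact hf v x y z a hc ⟨fun h1 => hvK a ha h1.symm, fun h1 => ha' (hux a ha h1.symm),
    fun h1 => ha' (huy a ha h1.symm), fun h1 => ha' (huz a ha h1.symm)⟩

theorem MC.false_of_noclaw (h : MC G k W) (hG : NoOH G)
    (hnc : ∀ v ∈ W, ∀ x ∈ W, ∀ y ∈ W, ∀ z ∈ W, ¬ Claw G v x y z) : False := by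
  have h5 := noC5_of_noOH hG
  have hd : ∀ v ∈ W, ∀ f, (Nb G W v f true).card + (Nb G W v f false).card ≤ 2 * (k - 1) :=
    fun v hv f => h.deg hv (h.nbhd h5 hnc hv) f
  obtain ⟨v0, hv0⟩ : W.Nonempty := by
    rw [Finset.nonempty_iff_ne_empty]
    rintro rfl
    have h1 := h.two
    have h2 : Fr G k (∅ : Finset V) := by
      intro s hs _
      rw [Finset.subset_empty.1 hs, Finset.card_empty]
      omega
    exact h.nodiv ⟨∅, Finset.Subset.refl _, h2, by simpa using h2⟩
  obtain ⟨f, hf⟩ := h.st hv0
  obtain ⟨w, g, hst, hw, hg⟩ := h.walk hd hf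
  have hadj : ∀ n, G.Adj (w n) (w (n + 1)) := fun n => (mem_Nb.1 (hw n)).2.1
  have hW : ∀ n, w n ∈ W := fun n => (hst n).mem
  have hprev : ∀ n, Nb G W (w (n + 1)) (g (n + 1)) n.bodd =
      insert (w n) ((Nb G W (w n) (g n) n.bodd).erase (w (n + 1))) := by
    intro n
    rw [hg n]
    exact h.Nb_shift hd (hst n) (hw n)
  have hcol : ∀ i m, i < m → (∀ j, i + 2 ≤ j → j < m → w i ≠ w j) →
      g m (w i) = i.bodd := by
    intro i m him
    induction m with
    | zero => omega
    | succ m ih =>
      intro hne
      rw [hg m]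
      rcases Nat.lt_or_ge i m with h1 | h1
      · have h2 : w i ≠ w m := by
          rcases Nat.lt_or_ge (i + 1) m with h3 | h3
          · exact hne m h3 (by omega)
          · rw [show m = i + 1 by omega]
            exact (hadj i).ne
        rw [Function.update_of_ne h2]
        exact ih h1 fun j hj hjm => hne j hj (by omega)
      · rw [show m = i by omega, Function.update_self]
  have main : ∀ m i, i + 2 ≤ m → w i ≠ w m ∧ ¬ G.Adj (w i) (w m) := by
    intro m
    induction m using Nat.strong_induction_on with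
    | _ m IH =>
      -- the second neighbour
      have base : ∀ i, i + 2 = m → w i ≠ w m ∧ ¬ G.Adj (w i) (w m) := by
        rintro i rfl
        have h1 : w i ∈ Nb G W (w (i + 1)) (g (i + 1)) i.bodd := by
          rw [hprev i]
          exact Finset.mem_insert_self _ _
        have h2 : w (i + 2) ∈ Nb G W (w (i + 1)) (g (i + 1)) (!i.bodd) := by
          have h3 := hw (i + 1)
          rwa [Nat.bodd_succ] at h3
        refine ⟨?_, h.anti hd (hst (i + 1)) h1 h2⟩
        intro h3
        have h4 := (mem_Nb.1 h1).2.2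
        have h5 := (mem_Nb.1 h2).2.2
        rw [h3, h5] at h4
        revert h4
        cases i.bodd <;> simp
      have hne : ∀ i, i + 3 ≤ m → w i ≠ w m := by
        intro i hi hcon
        obtain ⟨n, rfl⟩ : ∃ n, m = n + 1 := ⟨m - 1, by omega⟩
        have h1 := (IH n (by omega) i (by omega)).2
        rw [hcon] at h1
        exact h1 (hadj n).symm
      have key : ∀ i, i + 3 ≤ m → i.bodd ≠ m.bodd → ¬ G.Adj (w i) (w m) := by
        intro i hi hib hcon
        obtain ⟨n, rfl⟩ : ∃ n, m = n + 1 := ⟨m - 1, by omega⟩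
        obtain ⟨h1, h2⟩ := IH n (by omega) i (by omega)
        have h3 : g (n + 1) (w i) = i.bodd :=
          hcol i (n + 1) (by omega) fun j hj hjm => (IH j hjm i hj).1
        have h4 : i.bodd = n.bodd := by
          rw [Nat.bodd_succ] at hib
          revert hib
          cases i.bodd <;> cases n.bodd <;> simp
        have h5 : w i ∈ Nb G W (w (n + 1)) (g (n + 1)) n.bodd :=
          mem_Nb.2 ⟨hW i, hcon.symm, h3.trans h4⟩
        rw [hprev n, Finset.mem_insert, Finset.mem_erase] at h5
        rcases h5 with h5 | h5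
        · exact h1 h5
        · exact h2 (mem_Nb.1 h5.2).2.1.symm
      have hpos : ∀ i, 1 ≤ i → i + 3 ≤ m → ¬ G.Adj (w i) (w m) := by
        intro i hi1 him hcon
        by_cases hb : i.bodd = m.bodd
        · obtain ⟨j, rfl⟩ : ∃ j, i = j + 1 := ⟨i - 1, by omega⟩
          have hjm : j.bodd ≠ m.bodd := by
            rw [Nat.bodd_succ] at hb
            revert hb
            cases j.bodd <;> cases m.bodd <;> simp
          have hj2m : (j + 2).bodd ≠ m.bodd := by
            rw [show j + 2 = (j + 1) + 1 by ring, Nat.bodd_succ, Nat.bodd_succ, Bool.not_not]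
            exact hjm
          have hj5 : j + 2 + 3 ≤ m := by
            by_contra h1
            have h2 : m = j + 4 := by omega
            subst h2
            rw [show j + 4 = (j + 1) + 1 + 1 + 1 by ring, Nat.bodd_succ, Nat.bodd_succ,
              Nat.bodd_succ] at hb
            revert hb
            cases (j + 1).bodd <;> simp
          obtain ⟨h3, h4⟩ := IH (j + 2) (by omega) j le_rfl
          exact hnc (w (j + 1)) (hW _) (w j) (hW _) (w (j + 2)) (hW _) (w m) (hW _)
            ⟨(hadj j).symm, hadj (j + 1), hcon, h3, hne j (by omega), hne (j + 2) hj5, h4,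
              key j (by omega) hjm, key (j + 2) hj5 hj2m⟩
        · exact key i him hb hcon
      intro i him
      rcases Nat.lt_or_ge (i + 2) m with h1 | h1
      · refine ⟨hne i h1, ?_⟩
        rcases Nat.eq_zero_or_pos i with rfl | h2
        · intro hcon
          by_cases hb : (0 : ℕ).bodd = m.bodd
          · have h3 : ∃ t, m = 2 * t := by
              rcases Nat.even_or_odd' m with ⟨t, ht | ht⟩
              · exact ⟨t, ht⟩
              · exfalso
                rw [ht, Nat.bodd_succ, Nat.bodd_mul] at hb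
                simp at hb
            obtain ⟨t, rfl⟩ := h3
            refine hole_emb hG (w := w) (n := t) (by omega) (fun i _ => hadj i) hcon ?_
            intro i j hij hj hij0
            rcases Nat.lt_or_ge j (2 * t) with h4 | h4
            · exact IH j h4 i hij
            · have h5 : j = 2 * t := by omega
              subst h5
              have h6 : 1 ≤ i := by
                rcases Nat.eq_zero_or_pos i with h7 | h7
                · exact absurd rfl (hij0 h7)
                · exact h7
              rcases Nat.lt_or_ge (i + 2) (2 * t) with h7 | h7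
              · exact ⟨hne i h7, hpos i h6 h7⟩
              · exact base i (by omega)
          · exact key 0 h1 hb hcon
        · exact hpos i h2 h1
      · exact base i (by omega)
  have hinj : Function.Injective w := by
    intro i j hij
    by_contra hne
    have aux : ∀ a b, a < b → w a ≠ w b := by
      intro a b hab
      rcases Nat.lt_or_ge (a + 1) b with h1 | h1
      · exact (main b a h1).1
      · rw [show b = a + 1 by omega]
        exact (hadj a).ne
    rcases Nat.lt_or_ge i j with h1 | h1
    · exact aux i j h1 hij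
    · exact aux j i (by omega) hij.symm
  exact Set.infinite_of_injective_forall_mem hinj (s := (W : Set V)) (fun n => hW n)
    W.finite_toSet

/-- every odd-hole-free graph which is fork-free or (claw + K1)-free is 2-divisible -/
theorem good (hG : NoOH G) (hf : NoFork G ∨ NoClawK1 G) (W : Finset V) : Gd G W := by
  by_contra hcon
  obtain ⟨k, W, h⟩ := exists_mc ⟨W, hcon⟩
  have h5 := noC5_of_noOH hG
  refine h.false_of_noclaw hG ?_
  intro v hv x hx y hy z hz hc
  rcases hf with hf | hf
  · exact h.noclaw_of_fork hf h5 hv hx hy hz hc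
  · exact h.noclaw_of_clawK1 hf h5 hv hx hy hz hc

/-- from `Gd` to colourings -/
theorem final [Fintype V] (hedge : ∃ u v : V, G.Adj u v) (hgood : ∀ W : Finset V, Gd G W) :
    ∃ c : V → Bool, ∀ s : Finset V, G.IsClique (s : Set V) →
      (∀ t : Finset V, G.IsClique (t : Set V) → t.card ≤ s.card) →
      ∃ x ∈ s, ∃ y ∈ s, c x ≠ c y := by
  obtain ⟨u, v, huv⟩ := hedge
  -- a maximum clique
  obtain ⟨s0, hs0, hmax⟩ := Finset.exists_max_image
    ((Finset.univ : Finset (Finset V)).filter (fun s : Finset V => G.IsClique (s : Set V)))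
    Finset.card ⟨∅, Finset.mem_filter.2 ⟨Finset.mem_univ _, by simp⟩⟩
  rw [Finset.mem_filter] at hs0
  have hmax' : ∀ s : Finset V, G.IsClique (s : Set V) → s.card ≤ s0.card := fun s hc =>
    hmax s (Finset.mem_filter.2 ⟨Finset.mem_univ _, hc⟩)
  have h2 : 2 ≤ s0.card := by
    have h1 := hmax' {u, v} (by
      rw [Finset.coe_insert, Finset.coe_singleton, SimpleGraph.isClique_insert]
      refine ⟨by simp, ?_⟩
      intro x hx _
      rw [Set.mem_singleton_iff] at hx
      rw [hx]
      exact huv)
    rwa [Finset.card_pair huv.ne] at h1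
  obtain ⟨X, _, hX1, hX2⟩ := hgood Finset.univ s0.card h2 fun s _ hc => hmax' s hc
  refine ⟨fun x => decide (x ∈ X), fun s hs hsmax => ?_⟩
  have hcard : s.card = s0.card := le_antisymm (hmax' s hs) (hsmax s0 hs0.2)
  by_contra hcon
  push Not at hcon
  have hne : s.Nonempty := by
    rw [← Finset.card_pos]
    omega
  obtain ⟨a, ha⟩ := hne
  by_cases haX : a ∈ X
  · have h3 := hX1 s (fun x hx => by
      have h4 := hcon a ha x hx
      simpa [haX] using h4) hs
    omega
  · have h3 := hX2 s (fun x hx => by
      have h4 := hcon a ha x hx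
      rw [Finset.mem_sdiff]
      refine ⟨Finset.mem_univ _, ?_⟩
      simpa [haX] using h4) hs
    omega

end HM89
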