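import Pool.Agent.W_2414c2_h89.Fork

/-!
# MP_2414c2_co : in a claw-free minimal counterexample the neighbourhood of a vertex is the union
of two cliques
-/

set_option autoImplicit false

open Finset
open scoped Classical

namespace HM89

variable {V : Type*} {G : SimpleGraph V} {k : ℕ} {W : Finset V}

/-- closed walks of length `L`, as periodic sequences -/
structure Cw (P : V → V → Prop) (L : ℕ) (c : ℕ → V) : Prop where
  per : ∀ n, c (n + L) = c n
  adj : ∀ n, P (c n) (c (n + 1))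

theorem Cw.mod {P : V → V → Prop} {L : ℕ} {c : ℕ → V} (h : Cw P L c) (n : ℕ) :
    c (n % L) = c n := Function.Periodic.map_mod_nat h.per n

theorem Cw.congr {P : V → V → Prop} {L : ℕ} {c : ℕ → V} (h : Cw P L c) {a b : ℕ}
    (hab : a % L = b % L) : c a = c b := by
  rw [← h.mod a, ← h.mod b, hab]

/-- cutting a closed walk -/
theorem Cw.cut {P : V → V → Prop} {c : ℕ → V} (h : ∀ n, P (c n) (c (n + 1))) {i m : ℕ}
    (hm : 0 < m) (hc : P (c (i + (m - 1))) (c i)) : Cw P m fun n => c (i + n % m) := by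
  refine ⟨fun n => ?_, fun n => ?_⟩
  · show c (i + (n + m) % m) = c (i + n % m)
    rw [Nat.add_mod_right]
  · show P (c (i + n % m)) (c (i + (n + 1) % m))
    have h1 : n % m < m := Nat.mod_lt _ hm
    have h5 : (n + 1) % m = (n % m + 1) % m := by
      rw [Nat.mod_add_mod]
    by_cases h2 : n % m + 1 = m
    · have h3 : (n + 1) % m = 0 := by
        rw [h5, h2, Nat.mod_self]
      have h4 : n % m = m - 1 := by omega
      rw [h3, h4]
      exact hc
    · have h3 : (n + 1) % m = n % m + 1 := by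
        rw [h5, Nat.mod_eq_of_lt (by omega)]
      rw [h3, ← Nat.add_assoc]
      exact h _

/-- shortest odd closed walks are induced -/
theorem Cw.chord {P : V → V → Prop} (hs : ∀ x y, P x y → P y x) {L : ℕ} {c : ℕ → V}
    (h : Cw P L c) (hL : Odd L) (hmin : ∀ m < L, Odd m → ∀ c', ¬ Cw P m c') {i d : ℕ}
    (hd : 2 ≤ d) (hdL : d + 2 ≤ L) : c i ≠ c (i + d) ∧ ¬ P (c i) (c (i + d)) := by
  have hper : c (i + L) = c i := h.per i
  constructor
  · intro heq
    rcases Nat.even_or_odd d with he | ho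
    · have ho2 : Odd (L - d) := by
        obtain ⟨a, ha⟩ := he
        obtain ⟨b, hb⟩ := hL
        exact ⟨b - a, by omega⟩
      refine hmin (L - d) (by omega) ho2 _ (Cw.cut h.adj (i := i + d) (by omega) ?_)
      have h1 := h.adj (i + (L - 1))
      rw [show i + (L - 1) + 1 = i + L by omega, hper, heq] at h1
      rw [show i + d + (L - d - 1) = i + (L - 1) by omega]
      exact h1
    · refine hmin d (by omega) ho _ (Cw.cut h.adj (i := i) (by omega) ?_)
      have h1 := h.adj (i + (d - 1))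
      rw [show i + (d - 1) + 1 = i + d by omega, ← heq] at h1
      exact h1
  · intro hP
    rcases Nat.even_or_odd d with he | ho
    · refine hmin (d + 1) (by omega) he.add_one _ (Cw.cut h.adj (i := i) (by omega) ?_)
      rw [Nat.add_sub_cancel]
      exact hs _ _ hP
    · have ho2 : Odd (L - d + 1) := by
        obtain ⟨a, ha⟩ := ho
        obtain ⟨b, hb⟩ := hL
        exact ⟨b - a, by omega⟩
      refine hmin (L - d + 1) (by omega) ho2 _ (Cw.cut h.adj (i := i + d) (by omega) ?_)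
      rw [show i + d + (L - d + 1 - 1) = i + L by omega, hper]
      exact hP

/-- a graph without odd closed walks is bipartite -/
theorem exists_cw {U : Type*} (H : SimpleGraph U) (hH : ¬ H.Colorable 2) :
    ∃ L, Odd L ∧ ∃ c : ℕ → U, Cw H.Adj L c := by
  rw [SimpleGraph.two_colorable_iff_forall_loop_even] at hH
  push Not at hH
  obtain ⟨u, w, hw⟩ := hH
  rw [Nat.not_even_iff_odd] at hw
  refine ⟨w.length, hw, fun n => w.getVert (n % w.length), ?_⟩
  have hpos : 0 < w.length := hw.pos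
  refine ⟨fun n => ?_, fun n => ?_⟩
  · show w.getVert ((n + w.length) % w.length) = w.getVert (n % w.length)
    rw [Nat.add_mod_right]
  · show H.Adj (w.getVert (n % w.length)) (w.getVert ((n + 1) % w.length))
    have h1 : n % w.length < w.length := Nat.mod_lt _ hpos
    have h5 : (n + 1) % w.length = (n % w.length + 1) % w.length := by
      rw [Nat.mod_add_mod]
    have h2 := w.adj_getVert_succ h1
    by_cases h3 : n % w.length + 1 = w.length
    · rw [h5, h3, Nat.mod_self]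
      rw [h3, SimpleGraph.Walk.getVert_length] at h2
      rw [SimpleGraph.Walk.getVert_zero]
      exact h2
    · rw [h5, Nat.mod_eq_of_lt (show n % w.length + 1 < w.length by omega)]
      exact h2

/-- the data of a shortest odd antihole in a neighbourhood -/
structure Ah (G : SimpleGraph V) (L : ℕ) (c : ℕ → V) : Prop where
  odd : Odd L
  seven : 7 ≤ L
  per : ∀ n, c (n + L) = c n
  ne1 : ∀ n, c n ≠ c (n + 1)
  non : ∀ n, ¬ G.Adj (c n) (c (n + 1))
  adj : ∀ n d, 2 ≤ d → d + 2 ≤ L → G.Adj (c n) (c (n + d))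

theorem Ah.step {L : ℕ} {c : ℕ → V} (h : Ah G L c)
    (hnc : ∀ v ∈ W, ∀ x ∈ W, ∀ y ∈ W, ∀ z ∈ W, ¬ Claw G v x y z) (hcW : ∀ n, c n ∈ W)
    {x : V} (hx : x ∈ W) (hxc : ∀ n, x ≠ c n) {i : ℕ} (h0 : ¬ G.Adj x (c i))
    (h1 : ¬ G.Adj x (c (i + 1))) {d : ℕ} (hd : 3 ≤ d) (hdL : d + 2 ≤ L) :
    ¬ G.Adj x (c (i + d)) := by
  intro hadj
  refine hnc (c (i + d)) (hcW _) x hx (c i) (hcW _) (c (i + 1)) (hcW _) ⟨hadj.symm,
    (h.adj i d (by omega) hdL).symm, ?_, hxc _, hxc _, h.ne1 _, h0, h1, h.non _⟩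
  have h2 := h.adj (i + 1) (d - 1) (by omega) (by omega)
  rw [show i + 1 + (d - 1) = i + d by omega] at h2
  exact h2.symm

theorem Ah.all {L : ℕ} {c : ℕ → V} (h : Ah G L c)
    (hnc : ∀ v ∈ W, ∀ x ∈ W, ∀ y ∈ W, ∀ z ∈ W, ¬ Claw G v x y z) (hcW : ∀ n, c n ∈ W)
    {x : V} (hx : x ∈ W) (hxc : ∀ n, x ≠ c n) {i : ℕ} (h0 : ¬ G.Adj x (c i))
    (h1 : ¬ G.Adj x (c (i + 1))) (n : ℕ) : ¬ G.Adj x (c n) := by
  have h7 := h.seven
  have hst : ∀ d, 3 ≤ d → d + 2 ≤ L → ¬ G.Adj x (c (i + d)) := fun d hd hdL =>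
    h.step hnc hcW hx hxc h0 h1 hd hdL
  have hall : ∀ d < L, ¬ G.Adj x (c (i + d)) := by
    intro d hd
    rcases Nat.lt_or_ge d 3 with h3 | h3
    · interval_cases d
      · exact h0
      · exact h1
      · have h4 := h.step hnc hcW hx hxc (i := i + (L - 3)) (hst (L - 3) (by omega) (by omega))
          (by
            have := hst (L - 2) (by omega) (by omega)
            rwa [show i + (L - 2) = i + (L - 3) + 1 by omega] at this) (d := 5) (by omega)
            (by omega)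
        rw [show i + (L - 3) + 5 = i + 2 + L by omega, h.per] at h4
        exact h4
    · by_cases h5 : d + 2 ≤ L
      · exact hst d h3 h5
      · have h4 := h.step hnc hcW hx hxc (i := i + 3) (hst 3 (by omega) (by omega))
          (by
            have := hst 4 (by omega) (by omega)
            rwa [show i + 4 = i + 3 + 1 by omega] at this) (d := L - 4) (by omega) (by omega)
        rw [show i + 3 + (L - 4) = i + d by omega] at h4
        exact h4
  have hp : Function.Periodic c L := h.per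
  have h2 := hall ((n + i * L - i) % L) (Nat.mod_lt _ (by omega))
  have h3 : c (i + (n + i * L - i) % L) = c n := by
    rw [← hp.map_mod_nat (i + (n + i * L - i) % L), Nat.add_mod_mod]
    have h4 : i ≤ i * L := Nat.le_mul_of_pos_right _ (by omega)
    rw [show i + (n + i * L - i) = n + i * L by omega, Nat.add_mul_mod_self_right]
    exact hp.map_mod_nat n
  rw [h3] at h2
  exact h2

theorem MC.noAh (h : MC G k W) (h5 : NoC5 G)
    (hnc : ∀ v ∈ W, ∀ x ∈ W, ∀ y ∈ W, ∀ z ∈ W, ¬ Claw G v x y z) {L : ℕ} {c : ℕ → V}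
    (hA : Ah G L c) (hcW : ∀ n, c n ∈ W) : False := by
  have h7 := hA.seven
  have hp : Function.Periodic c L := hA.per
  obtain ⟨K, hKW, hK, hKk, hK0⟩ := h.star (hcW 0)
  have h02 := hA.adj 0 2 (by omega) (by omega)
  have h03 := hA.adj 0 3 (by omega) (by omega)
  rw [Nat.zero_add] at h02 h03
  have h23 := hA.non 2
  obtain ⟨a, haK, ha2, ha3⟩ : ∃ a ∈ K, ¬ G.Adj a (c 2) ∧ ¬ G.Adj a (c 3) := by
    rcases nst h5 hK (fun p hp => (hK0 p hp).2) h02 h03 h23 with h1 | h1
    · obtain ⟨a, ha, ha'⟩ := h.nfull (hcW 3) hKW hK hKk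
      exact ⟨a, ha, fun h2 => ha' (h1 a ha h2.symm), fun h2 => ha' h2.symm⟩
    · obtain ⟨a, ha, ha'⟩ := h.nfull (hcW 2) hKW hK hKk
      exact ⟨a, ha, fun h2 => ha' h2.symm, fun h2 => ha' (h1 a ha h2.symm)⟩
  have haW := hKW haK
  have hac : ∀ n, a ≠ c n := by
    intro n hn
    rw [← hp.map_mod_nat n] at hn
    have h1 : n % L < L := Nat.mod_lt _ (by omega)
    generalize n % L = r at hn h1
    rcases Nat.lt_or_ge r 2 with h2 | h2
    · interval_cases r
      · exact (hK0 a haK).1 hn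
      · have h3 := hA.adj 1 2 (by omega) (by omega)
        rw [← hn] at h3
        exact ha3 h3
    · by_cases h3 : r + 2 ≤ L
      · have h4 := hA.adj 0 r h2 h3
        rw [Nat.zero_add, ← hn] at h4
        exact (hK0 a haK).2 h4
      · have h4 := hA.adj 3 (L - 4) (by omega) (by omega)
        rw [show 3 + (L - 4) = r by omega, ← hn] at h4
        exact ha3 h4.symm
  have haall : ∀ n, ¬ G.Adj a (c n) := hA.all hnc hcW haW hac ha2 ha3
  by_cases hex : ∃ d ∈ W, ∃ r ∈ W, (∀ n, d ≠ c n ∧ ¬ G.Adj d (c n)) ∧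
      ¬ (∀ n, r ≠ c n ∧ ¬ G.Adj r (c n)) ∧ G.Adj d r
  · obtain ⟨d, hd, r, hr, hdD, hrD, hdr⟩ := hex
    have hrc : ∀ n, r ≠ c n := by
      rintro n rfl
      exact (hdD n).2 hdr
    have h1 : ∀ n, ¬ (¬ G.Adj r (c n) ∧ ¬ G.Adj r (c (n + 1))) := by
      rintro n ⟨h2, h3⟩
      exact hrD fun m => ⟨hrc m, hA.all hnc hcW hr hrc h2 h3 m⟩
    have h2 : ∀ n, ¬ (G.Adj r (c n) ∧ G.Adj r (c (n + 1))) := by
      rintro n ⟨h3, h4⟩
      exact hnc r hr d hd (c n) (hcW _) (c (n + 1)) (hcW _) ⟨hdr.symm, h3, h4, (hdD _).1,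
        (hdD _).1, hA.ne1 _, (hdD _).2, (hdD _).2, hA.non _⟩
    have h3 : ∀ n, G.Adj r (c (2 * n)) ↔ G.Adj r (c 0) := by
      intro n
      induction n with
      | zero => rfl
      | succ n ih =>
        have h4 := h1 (2 * n)
        have h5 := h2 (2 * n)
        have h6 := h1 (2 * n + 1)
        have h7 := h2 (2 * n + 1)
        rw [show 2 * (n + 1) = 2 * n + 1 + 1 by ring]
        tauto
    obtain ⟨m, hm⟩ := hA.odd
    have h4 := h3 m
    have h5 := h1 (2 * m)
    have h6 := h2 (2 * m)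
    have h8 := hA.per 0
    rw [Nat.zero_add, hm] at h8
    rw [h8] at h5 h6
    tauto
  · push Not at hex
    refine h.conn (A := W.filter fun d => ∀ n, d ≠ c n ∧ ¬ G.Adj d (c n))
      (Finset.filter_subset _ _) ⟨a, Finset.mem_filter.2 ⟨haW, fun n => ⟨hac n, haall n⟩⟩⟩
      ⟨c 0, Finset.mem_sdiff.2 ⟨hcW 0, fun h1 => ((Finset.mem_filter.1 h1).2 0).1 rfl⟩⟩ ?_
    intro d hd r hr hdr
    rw [Finset.mem_filter] at hd
    rw [Finset.mem_sdiff, Finset.mem_filter] at hr
    refine hex d hd.1 r hr.1 hd.2 ?_ hdr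
    by_contra hcon
    push Not at hcon
    exact hr.2 ⟨hr.1, hcon⟩

/-- the neighbourhood of a vertex is the union of two cliques -/
theorem MC.nbhd (h : MC G k W) (h5 : NoC5 G)
    (hnc : ∀ v ∈ W, ∀ x ∈ W, ∀ y ∈ W, ∀ z ∈ W, ¬ Claw G v x y z) {v : V} (hv : v ∈ W) :
    ∃ g : V → Bool, ∀ x ∈ W, ∀ y ∈ W, G.Adj v x → G.Adj v y → x ≠ y → g x = g y →
      G.Adj x y := by
  let U := {x : V // x ∈ W ∧ G.Adj v x}
  let H : SimpleGraph U :=
    { Adj := fun x y => x.1 ≠ y.1 ∧ ¬ G.Adj x.1 y.1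
      symm := ⟨fun x y hxy => ⟨hxy.1.symm, fun h1 => hxy.2 h1.symm⟩⟩
      loopless := ⟨fun x hx => hx.1 rfl⟩ }
  by_cases hH : H.Colorable 2
  · obtain ⟨C⟩ := hH
    refine ⟨fun x => if hx : x ∈ W ∧ G.Adj v x then decide (C ⟨x, hx⟩ = 0) else false, ?_⟩
    intro x hx y hy hvx hvy hxy hg
    by_contra hadj
    have h1 : H.Adj ⟨x, hx, hvx⟩ ⟨y, hy, hvy⟩ := ⟨hxy, hadj⟩
    have h2 := C.valid h1
    have hx' : x ∈ W ∧ G.Adj v x := ⟨hx, hvx⟩
    have hy' : y ∈ W ∧ G.Adj v y := ⟨hy, hvy⟩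
    simp only [hx', hy', and_self, dif_pos, decide_eq_decide] at hg
    have e1 : ∀ a b : Fin 2, a ≠ b → ¬ (a = 0 ↔ b = 0) := by decide
    exact e1 _ _ h2 hg
  · exfalso
    obtain ⟨L0, hL0, c0, hc0⟩ := exists_cw H hH
    have hexL : ∃ L, Odd L ∧ ∃ c : ℕ → U, Cw H.Adj L c := ⟨L0, hL0, c0, hc0⟩
    obtain ⟨L, ⟨hL, c, hc⟩, hmin⟩ : ∃ L, (Odd L ∧ ∃ c : ℕ → U, Cw H.Adj L c) ∧
        ∀ m < L, ¬ (Odd m ∧ ∃ c : ℕ → U, Cw H.Adj m c) :=
      ⟨Nat.find hexL, Nat.find_spec hexL, fun m hm => Nat.find_min hexL hm⟩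
    have hmin' : ∀ m < L, Odd m → ∀ c' : ℕ → U, ¬ Cw H.Adj m c' := fun m hm ho c' hc' =>
      hmin m hm ⟨ho, c', hc'⟩
    have hch : ∀ n d, 2 ≤ d → d + 2 ≤ L → G.Adj (c n).1 (c (n + d)).1 := by
      intro n d hd hdL
      obtain ⟨h1, h2⟩ := hc.chord (fun x y hxy => hxy.symm) hL hmin' (i := n) hd hdL
      by_contra h3
      exact h2 ⟨fun h4 => h1 (Subtype.ext h4), h3⟩
    have hnon : ∀ n, (c n).1 ≠ (c (n + 1)).1 ∧ ¬ G.Adj (c n).1 (c (n + 1)).1 := fun n => hc.adj n
    have hper : ∀ n, (c (n + L)).1 = (c n).1 := fun n => congrArg _ (hc.per n)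
    have hcW : ∀ n, (c n).1 ∈ W := fun n => (c n).2.1
    have hcv : ∀ n, G.Adj v (c n).1 := fun n => (c n).2.2
    obtain ⟨m, hm⟩ := hL
    rcases Nat.lt_or_ge m 3 with hm3 | hm3
    · interval_cases m
      · have h1 := hper 0
        have h2 := (hnon 0).1
        rw [hm] at h1
        exact h2 h1.symm
      · have h1 := hper 0
        rw [hm] at h1
        have h2 := hnon 2
        rw [show (2 : ℕ) + 1 = 0 + (2 * 1 + 1) by norm_num, h1] at h2
        exact hnc v hv _ (hcW 0) _ (hcW 1) _ (hcW 2) ⟨hcv _, hcv _, hcv _, (hnon 0).1,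
          fun h3 => h2.1 h3.symm, (hnon 1).1, (hnon 0).2, fun h3 => h2.2 h3.symm, (hnon 1).2⟩
      · have p0 := hper 0
        have p1 := hper 1
        rw [hm] at p0 p1
        have a02 := hch 0 2 (by omega) (by omega)
        have a13 := hch 1 2 (by omega) (by omega)
        have a24 := hch 2 2 (by omega) (by omega)
        have a03 := hch 0 3 (by omega) (by omega)
        have a14 := hch 1 3 (by omega) (by omega)
        have n4 := (hnon 4).2
        rw [show (4 : ℕ) + 1 = 0 + (2 * 2 + 1) by norm_num, p0] at n4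
        exact h5 _ _ _ _ _ a02 a24 a14.symm a13 a03.symm (fun h1 => n4 h1.symm) (hnon 0).2
          (fun h1 => (hnon 1).2 h1.symm) (hnon 2).2 (fun h1 => (hnon 3).2 h1.symm)
    · exact h.noAh h5 hnc (L := L) (c := fun n => (c n).1)
        ⟨⟨m, hm⟩, by omega, hper, fun n => (hnon n).1, fun n => (hnon n).2, hch⟩ hcW

end HM89
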