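import Mathlib

/-!
# MP_2414c2_co : 2-divisions, minimal counterexamples

`Fr G k W`: the set `W` contains no clique with `k` or more elements.
`Dv G k W`: `W` is the union of two such sets.
`Gd G W`: `W` is 2-divisible.
`MC G k W`: `W` is a minimal set which is not 2-divisible.
-/

set_option autoImplicit false

open Finset
open scoped Classical

namespace HM89

variable {V : Type*} (G : SimpleGraph V)

/-- no clique with `k` or more elements -/
def Fr (k : ℕ) (W : Finset V) : Prop := ∀ s ⊆ W, G.IsClique (s : Set V) → s.card < k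

/-- union of two sets without cliques of size `k` -/
def Dv (k : ℕ) (W : Finset V) : Prop := ∃ X ⊆ W, Fr G k X ∧ Fr G k (W \ X)

/-- 2-divisible -/
def Gd (W : Finset V) : Prop :=
  ∀ k, 2 ≤ k → (∀ s ⊆ W, G.IsClique (s : Set V) → s.card ≤ k) → Dv G k W

/-- minimal counterexample -/
structure MC (k : ℕ) (W : Finset V) : Prop where
  two : 2 ≤ k
  le : ∀ s ⊆ W, G.IsClique (s : Set V) → s.card ≤ k
  nodiv : ¬ Dv G k W
  min : ∀ W' ⊂ W, Gd G W'

/-- no induced cycle of length five -/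
def NoC5 : Prop := ∀ a b c d e : V, G.Adj a b → G.Adj b c → G.Adj c d → G.Adj d e → G.Adj e a →
  ¬ G.Adj a c → ¬ G.Adj a d → ¬ G.Adj b d → ¬ G.Adj b e → ¬ G.Adj c e → False

variable {G} {k : ℕ} {W : Finset V}

theorem exists_mc (h : ∃ W, ¬ Gd G W) : ∃ k W, MC G k W := by
  obtain ⟨W0, hW0⟩ := h
  obtain ⟨W, hW, hmin⟩ : ∃ W, ¬ Gd G W ∧ ∀ W' ⊂ W, Gd G W' := by
    induction W0 using Finset.strongInduction with
    | H s ih =>
      by_cases hs : ∀ W' ⊂ s, Gd G W'
      · exact ⟨s, hW0, hs⟩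
      · push Not at hs
        obtain ⟨W', h1, h2⟩ := hs
        exact ih W' h1 h2
  unfold Gd at hW
  push Not at hW
  obtain ⟨k, hk, hle, hnd⟩ := hW
  exact ⟨k, W, hk, hle, hnd, hmin⟩

theorem cl_insert {v : V} {s : Finset V} (hs : G.IsClique (s : Set V)) (hv : ∀ p ∈ s, G.Adj v p) :
    G.IsClique ((insert v s : Finset V) : Set V) := by
  rw [Finset.coe_insert, SimpleGraph.isClique_insert]
  exact ⟨hs, fun b hb _ => hv b hb⟩

theorem cl_card_insert {v : V} {s : Finset V} (hv : ∀ p ∈ s, G.Adj v p) :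
    (insert v s).card = s.card + 1 :=
  Finset.card_insert_of_notMem fun h => G.irrefl (hv v h)

theorem MC.ext_card (h : MC G k W) {v : V} (hv : v ∈ W) {s : Finset V} (hsW : s ⊆ W)
    (hs : G.IsClique (s : Set V)) (hvs : ∀ p ∈ s, G.Adj v p) : s.card + 1 ≤ k := by
  rw [← cl_card_insert hvs]
  exact h.le _ (Finset.insert_subset hv hsW) (cl_insert hs hvs)

/-- every vertex is anticomplete to a maximum clique -/
theorem MC.star (h : MC G k W) {v : V} (hv : v ∈ W) : ∃ K ⊆ W, G.IsClique (K : Set V) ∧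
    K.card = k ∧ ∀ p ∈ K, p ≠ v ∧ ¬ G.Adj v p := by
  by_contra hcon
  push Not at hcon
  apply h.nodiv
  refine ⟨W.filter (fun x => G.Adj v x), Finset.filter_subset _ _, ?_, ?_⟩
  · intro s hs hc
    have h1 : ∀ p ∈ s, G.Adj v p := fun p hp => (Finset.mem_filter.1 (hs hp)).2
    have h2 := h.ext_card hv (hs.trans (Finset.filter_subset _ _)) hc h1
    omega
  · intro s hs hc
    have hsW : s ⊆ W := hs.trans Finset.sdiff_subset
    have hna : ∀ p ∈ s, ¬ G.Adj v p := by
      intro p hp hvp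
      have h1 := Finset.mem_sdiff.1 (hs hp)
      exact h1.2 (Finset.mem_filter.2 ⟨h1.1, hvp⟩)
    by_contra hlt
    have hk : s.card = k := le_antisymm (h.le s hsW hc) (not_lt.1 hlt)
    obtain ⟨p, hp, hp'⟩ := hcon s hsW hc hk
    by_cases hpv : p = v
    · subst hpv
      have h2 := h.two
      obtain ⟨q, hq, hqp⟩ : ∃ q ∈ s, q ≠ p := by
        apply Finset.exists_mem_ne
        omega
      exact hna q hq (hc hp hq hqp.symm)
    · exact hna p hp (hp' hpv)

/-- a vertex outside a maximum clique has a non-neighbour there -/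
theorem MC.nfull (h : MC G k W) {x : V} (hx : x ∈ W) {K : Finset V} (hKW : K ⊆ W)
    (hK : G.IsClique (K : Set V)) (hk : K.card = k) : ∃ a ∈ K, ¬ G.Adj x a := by
  by_contra hcon
  push Not at hcon
  have h1 := h.ext_card hx hKW hK hcon
  omega

theorem nst (h5 : NoC5 G) {K : Finset V} (hK : G.IsClique (K : Set V)) {v x y : V}
    (hvK : ∀ p ∈ K, ¬ G.Adj v p) (hx : G.Adj v x) (hy : G.Adj v y) (hn : ¬ G.Adj x y) :
    (∀ p ∈ K, G.Adj x p → G.Adj y p) ∨ (∀ p ∈ K, G.Adj y p → G.Adj x p) := by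
  by_contra hcon
  push Not at hcon
  obtain ⟨⟨p, hp, hxp, hyp⟩, ⟨q, hq, hyq, hxq⟩⟩ := hcon
  have hpq : p ≠ q := by
    rintro rfl
    exact hyp hyq
  exact h5 v x p q y hx hxp (hK hp hq hpq) hyq.symm hy.symm (hvK p hp) (hvK q hq) hxq hn
    (fun h => hyp h.symm)

/-- a minimal counterexample has no module which contains an edge -/
theorem MC.mod (h : MC G k W) {T : Finset V} (hT : T ⊆ W) (hTW : ∃ v ∈ W, v ∉ T)
    (hTe : ∃ a ∈ T, ∃ b ∈ T, G.Adj a b)
    (hm : ∀ u ∈ W, u ∉ T → (∀ t ∈ T, G.Adj u t) ∨ (∀ t ∈ T, ¬ G.Adj u t)) : False := by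
  obtain ⟨a, ha, b, hb, hab⟩ := hTe
  obtain ⟨v, hv, hvT⟩ := hTW
  have hTW' : T ⊂ W := ⟨hT, fun h1 => hvT (h1 hv)⟩
  have hR : W \ T ⊂ W := by
    refine ⟨Finset.sdiff_subset, fun h1 => ?_⟩
    exact (Finset.mem_sdiff.1 (h1 (hT ha))).2 ha
  -- a maximum clique of T
  obtain ⟨s0, hs0, hmax⟩ := Finset.exists_max_image
    (T.powerset.filter (fun s : Finset V => G.IsClique (s : Set V))) Finset.card
    ⟨∅, Finset.mem_filter.2 ⟨Finset.empty_mem_powerset _, by simp⟩⟩
  rw [Finset.mem_filter, Finset.mem_powerset] at hs0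
  have hmax' : ∀ s ⊆ T, G.IsClique (s : Set V) → s.card ≤ s0.card := fun s hs hc =>
    hmax s (Finset.mem_filter.2 ⟨Finset.mem_powerset.2 hs, hc⟩)
  have ht2 : 2 ≤ s0.card := by
    have h1 := hmax' {a, b} (by
      intro x hx
      rw [Finset.mem_insert, Finset.mem_singleton] at hx
      rcases hx with rfl | rfl
      · exact ha
      · exact hb) (by
      rw [Finset.coe_insert, Finset.coe_singleton, SimpleGraph.isClique_insert]
      refine ⟨by simp, ?_⟩
      intro x hx _
      rw [Set.mem_singleton_iff] at hx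
      rw [hx]
      exact hab)
    rw [Finset.card_pair hab.ne] at h1
    exact h1
  obtain ⟨T1, hT1, hF1, hF2⟩ := h.min T hTW' s0.card ht2 hmax'
  obtain ⟨R1, hR1, hG1, hG2⟩ := h.min (W \ T) hR k h.two fun s hs hc =>
    h.le s (hs.trans Finset.sdiff_subset) hc
  have aux : ∀ T' ⊆ T, Fr G s0.card T' → ∀ R' ⊆ W \ T, Fr G k R' → Fr G k (T' ∪ R') := by
    intro T' hT' hFT R' hR' hFR s hs hc
    by_cases hsT : s ∩ T = ∅
    · refine hFR s ?_ hc
      intro x hx
      rcases Finset.mem_union.1 (hs hx) with h1 | h1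
      · have : x ∈ s ∩ T := Finset.mem_inter.2 ⟨hx, hT' h1⟩
        rw [hsT] at this
        exact absurd this (Finset.notMem_empty x)
      · exact h1
    · obtain ⟨c, hc'⟩ := Finset.nonempty_iff_ne_empty.2 hsT
      rw [Finset.mem_inter] at hc'
      have h1 : (s ∩ T).card < s0.card := by
        apply hFT
        · intro x hx
          rw [Finset.mem_inter] at hx
          rcases Finset.mem_union.1 (hs hx.1) with h1 | h1
          · exact h1
          · exact absurd hx.2 (Finset.mem_sdiff.1 (hR' h1)).2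
        · exact hc.subset (by simp)
      have hcomp : ∀ x ∈ s \ T, ∀ t ∈ T, G.Adj x t := by
        intro x hx t ht
        rw [Finset.mem_sdiff] at hx
        have hxW : x ∈ W := by
          rcases Finset.mem_union.1 (hs hx.1) with h1 | h1
          · exact hT (hT' h1)
          · exact (Finset.mem_sdiff.1 (hR' h1)).1
        rcases hm x hxW hx.2 with h2 | h2
        · exact h2 t ht
        · have hne : x ≠ c := by
            rintro rfl
            exact hx.2 hc'.2
          exact absurd (hc hx.1 hc'.1 hne) (h2 c hc'.2)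
      have h2 : G.IsClique ((s \ T ∪ s0 : Finset V) : Set V) := by
        intro x hx y hy hxy
        rw [Finset.coe_union, Set.mem_union, Finset.mem_coe, Finset.mem_coe] at hx hy
        rcases hx with hx | hx <;> rcases hy with hy | hy
        · exact hc (Finset.mem_sdiff.1 hx).1 (Finset.mem_sdiff.1 hy).1 hxy
        · exact hcomp x hx y (Finset.mem_powerset.1 (Finset.mem_powerset.2 hs0.1) hy)
        · exact (hcomp y hy x (hs0.1 hx)).symm
        · exact hs0.2 hx hy hxy
      have h3 := h.le (s \ T ∪ s0) (by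
        apply Finset.union_subset
        · intro x hx
          rw [Finset.mem_sdiff] at hx
          rcases Finset.mem_union.1 (hs hx.1) with h1 | h1
          · exact hT (hT' h1)
          · exact (Finset.mem_sdiff.1 (hR' h1)).1
        · exact hs0.1.trans hT) h2
      rw [Finset.card_union_of_disjoint (by
        rw [Finset.disjoint_left]
        intro x hx hx'
        exact (Finset.mem_sdiff.1 hx).2 (hs0.1 hx'))] at h3
      have h4 := Finset.card_sdiff_add_card_inter s T
      omega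
  apply h.nodiv
  refine ⟨T1 ∪ R1, Finset.union_subset (hT1.trans hT) (hR1.trans Finset.sdiff_subset),
    aux T1 hT1 hF1 R1 hR1 hG1, ?_⟩
  have heq : W \ (T1 ∪ R1) = (T \ T1) ∪ ((W \ T) \ R1) := by
    ext x
    simp only [Finset.mem_sdiff, Finset.mem_union]
    constructor
    · rintro ⟨h1, h2⟩
      push Not at h2
      by_cases hx : x ∈ T
      · exact Or.inl ⟨hx, h2.1⟩
      · exact Or.inr ⟨⟨h1, hx⟩, h2.2⟩
    · rintro (⟨h1, h2⟩ | ⟨⟨h1, h2⟩, h3⟩)
      · refine ⟨hT h1, ?_⟩
        rintro (h3 | h3)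
        · exact h2 h3
        · exact (Finset.mem_sdiff.1 (hR1 h3)).2 h1
      · refine ⟨h1, ?_⟩
        rintro (h4 | h4)
        · exact h2 (hT1 h4)
        · exact h3 h4
  rw [heq]
  exact aux _ Finset.sdiff_subset hF2 _ Finset.sdiff_subset hG2

/-- a minimal counterexample is connected -/
theorem MC.conn (h : MC G k W) {A : Finset V} (hA : A ⊆ W) (hA1 : A.Nonempty)
    (hA2 : (W \ A).Nonempty) (hno : ∀ a ∈ A, ∀ b ∈ W \ A, ¬ G.Adj a b) : False := by
  obtain ⟨a, ha⟩ := hA1
  obtain ⟨b, hb⟩ := hA2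
  have hA' : A ⊂ W := ⟨hA, fun h1 => (Finset.mem_sdiff.1 hb).2 (h1 (Finset.mem_sdiff.1 hb).1)⟩
  have hB' : W \ A ⊂ W := ⟨Finset.sdiff_subset, fun h1 => (Finset.mem_sdiff.1 (h1 (hA ha))).2 ha⟩
  obtain ⟨X1, hX1, hF1, hF2⟩ := h.min A hA' k h.two fun s hs hc => h.le s (hs.trans hA) hc
  obtain ⟨X2, hX2, hG1, hG2⟩ := h.min (W \ A) hB' k h.two fun s hs hc =>
    h.le s (hs.trans Finset.sdiff_subset) hc
  have aux : ∀ T' ⊆ A, Fr G k T' → ∀ R' ⊆ W \ A, Fr G k R' → Fr G k (T' ∪ R') := by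
    intro T' hT' hFT R' hR' hFR s hs hc
    by_cases hs1 : s ⊆ T'
    · exact hFT s hs1 hc
    · by_cases hs2 : s ⊆ R'
      · exact hFR s hs2 hc
      · exfalso
        rw [Finset.not_subset] at hs1 hs2
        obtain ⟨x, hx, hx'⟩ := hs1
        obtain ⟨y, hy, hy'⟩ := hs2
        have hxR : x ∈ R' := (Finset.mem_union.1 (hs hx)).resolve_left hx'
        have hyT : y ∈ T' := (Finset.mem_union.1 (hs hy)).resolve_right hy'
        have hne : y ≠ x := by
          rintro rfl
          exact hx' hyT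
        exact hno y (hT' hyT) x (hR' hxR) (hc hy hx hne)
  apply h.nodiv
  refine ⟨X1 ∪ X2, Finset.union_subset (hX1.trans hA) (hX2.trans Finset.sdiff_subset),
    aux X1 hX1 hF1 X2 hX2 hG1, ?_⟩
  have heq : W \ (X1 ∪ X2) = (A \ X1) ∪ ((W \ A) \ X2) := by
    ext x
    simp only [Finset.mem_sdiff, Finset.mem_union]
    constructor
    · rintro ⟨h1, h2⟩
      push Not at h2
      by_cases hx : x ∈ A
      · exact Or.inl ⟨hx, h2.1⟩
      · exact Or.inr ⟨⟨h1, hx⟩, h2.2⟩
    · rintro (⟨h1, h2⟩ | ⟨⟨h1, h2⟩, h3⟩)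
      · refine ⟨hA h1, ?_⟩
        rintro (h3 | h3)
        · exact h2 h3
        · exact (Finset.mem_sdiff.1 (hX2 h3)).2 h1
      · refine ⟨h1, ?_⟩
        rintro (h4 | h4)
        · exact h2 (hX1 h4)
        · exact h3 h4
  rw [heq]
  exact aux _ Finset.sdiff_subset hF2 _ Finset.sdiff_subset hG2

end HM89
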