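import Pool.Agent.W_2414c2_h89.Base

/-!
# MP_2414c2_co : a minimal counterexample without forks has no claws
-/

set_option autoImplicit false

open Finset
open scoped Classical

namespace HM89

variable {V : Type*} {G : SimpleGraph V} {k : ℕ} {W : Finset V}

/-- no induced fork: the claw with centre `v` and leaves `x`, `y`, `z`, and a pendant vertex `w` at
the leaf `z` -/
def NoFork (G : SimpleGraph V) : Prop := ∀ v x y z w : V, G.Adj v x → G.Adj v y → G.Adj v z →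
  G.Adj z w → x ≠ y → x ≠ z → y ≠ z → w ≠ v → ¬ G.Adj x y → ¬ G.Adj x z → ¬ G.Adj y z →
  ¬ G.Adj w v → ¬ G.Adj w x → ¬ G.Adj w y → False

/-- claws -/
structure Claw (G : SimpleGraph V) (v x y z : V) : Prop where
  vx : G.Adj v x
  vy : G.Adj v y
  vz : G.Adj v z
  nxy : x ≠ y
  nxz : x ≠ z
  nyz : y ≠ z
  xy : ¬ G.Adj x y
  xz : ¬ G.Adj x z
  yz : ¬ G.Adj y z

/-- `t` is anticomplete to the claw -/
structure An (G : SimpleGraph V) (v x y z t : V) : Prop where
  v : ¬ G.Adj t v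
  x : ¬ G.Adj t x
  y : ¬ G.Adj t y
  z : ¬ G.Adj t z

/-- stable sets -/
def Stb (G : SimpleGraph V) (U : Finset V) : Prop := ∀ x ∈ U, ∀ y ∈ U, ¬ G.Adj x y

theorem att (hf : NoFork G) {v x y z t u : V} (hc : Claw G v x y z) (ht : An G v x y z t)
    (hut : G.Adj u t) (hu : ¬ An G v x y z u) :
    (G.Adj u x ∨ G.Adj u y) ∧ (G.Adj u x ∨ G.Adj u z) ∧ (G.Adj u y ∨ G.Adj u z) := by
  have huv : u ≠ v := by
    rintro rfl
    exact ht.v hut.symm
  have hux : u ≠ x := by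
    rintro rfl
    exact ht.x hut.symm
  have huy : u ≠ y := by
    rintro rfl
    exact ht.y hut.symm
  have huz : u ≠ z := by
    rintro rfl
    exact ht.z hut.symm
  have htv : t ≠ v := by
    rintro rfl
    exact ht.x hc.vx
  by_cases h : G.Adj u v
  · refine ⟨?_, ?_, ?_⟩
    · by_contra hcon
      push Not at hcon
      exact hf v x y u t hc.vx hc.vy h.symm hut hc.nxy hux.symm huy.symm htv hc.xy
        (fun h => hcon.1 h.symm) (fun h => hcon.2 h.symm) ht.v ht.x ht.y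
    · by_contra hcon
      push Not at hcon
      exact hf v x z u t hc.vx hc.vz h.symm hut hc.nxz hux.symm huz.symm htv hc.xz
        (fun h => hcon.1 h.symm) (fun h => hcon.2 h.symm) ht.v ht.x ht.z
    · by_contra hcon
      push Not at hcon
      exact hf v y z u t hc.vy hc.vz h.symm hut hc.nyz huy.symm huz.symm htv hc.yz
        (fun h => hcon.1 h.symm) (fun h => hcon.2 h.symm) ht.v ht.y ht.z
  · have h1 : G.Adj u x ∨ G.Adj u y ∨ G.Adj u z := by
      by_contra hcon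
      push Not at hcon
      exact hu ⟨h, hcon.1, hcon.2.1, hcon.2.2⟩
    refine ⟨?_, ?_, ?_⟩
    · by_contra hcon
      push Not at hcon
      have h2 : G.Adj u z := by tauto
      exact hf v x y z u hc.vx hc.vy hc.vz h2.symm hc.nxy hc.nxz hc.nyz huv hc.xy hc.xz hc.yz
        h hcon.1 hcon.2
    · by_contra hcon
      push Not at hcon
      have h2 : G.Adj u y := by tauto
      exact hf v x z y u hc.vx hc.vz hc.vy h2.symm hc.nxz hc.nxy hc.nyz.symm huv hc.xz hc.xy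
        (fun h => hc.yz h.symm) h hcon.1 hcon.2
    · by_contra hcon
      push Not at hcon
      have h2 : G.Adj u x := by tauto
      exact hf v y z x u hc.vy hc.vz hc.vx h2.symm hc.nyz hc.nxy.symm hc.nxz.symm huv hc.yz
        (fun h => hc.xy h.symm) (fun h => hc.xz h.symm) h hcon.1 hcon.2

theorem att2 (hf : NoFork G) {v x y z t u : V} (hc : Claw G v x y z) (ht : An G v x y z t)
    (hut : G.Adj u t) (hu : ¬ An G v x y z u) :
    ∃ l1 l2, l1 ≠ l2 ∧ G.Adj u l1 ∧ G.Adj u l2 ∧ ¬ G.Adj l1 l2 ∧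
      ∀ t, An G v x y z t → ¬ G.Adj t l1 ∧ ¬ G.Adj t l2 ∧ l1 ≠ t ∧ l2 ≠ t := by
  have h := att hf hc ht hut hu
  have hx : ∀ t, An G v x y z t → x ≠ t := by
    rintro t ht rfl
    exact ht.v hc.vx.symm
  have hy : ∀ t, An G v x y z t → y ≠ t := by
    rintro t ht rfl
    exact ht.v hc.vy.symm
  have hz : ∀ t, An G v x y z t → z ≠ t := by
    rintro t ht rfl
    exact ht.v hc.vz.symm
  by_cases h1 : G.Adj u x
  · by_cases h2 : G.Adj u y
    · exact ⟨x, y, hc.nxy, h1, h2, hc.xy, fun t ht => ⟨ht.x, ht.y, hx t ht, hy t ht⟩⟩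
    · have h3 : G.Adj u z := by tauto
      exact ⟨x, z, hc.nxz, h1, h3, hc.xz, fun t ht => ⟨ht.x, ht.z, hx t ht, hz t ht⟩⟩
  · have h2 : G.Adj u y := by tauto
    have h3 : G.Adj u z := by tauto
    exact ⟨y, z, hc.nyz, h2, h3, hc.yz, fun t ht => ⟨ht.y, ht.z, hy t ht, hz t ht⟩⟩

/-- the vertices anticomplete to a claw form a stable set -/
theorem MC.stabM (h : MC G k W) (hf : NoFork G) {v x y z : V} (hv : v ∈ W)
    (hc : Claw G v x y z) {t1 t2 : V} (h1 : An G v x y z t1) (h1W : t1 ∈ W)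
    (h2 : An G v x y z t2) (h2W : t2 ∈ W) (h12 : G.Adj t1 t2) : False := by
  let r : V → V → Prop := fun a b => G.Adj a b ∧ b ∈ W ∧ An G v x y z b
  have hAn : ∀ t, Relation.ReflTransGen r t1 t → An G v x y z t := by
    intro t ht
    rcases Relation.ReflTransGen.cases_tail ht with h3 | ⟨c, -, h3⟩
    · rw [h3]; exact h1
    · exact h3.2.2
  let T : Finset V := W.filter (fun t => Relation.ReflTransGen r t1 t)
  have hT : ∀ t, t ∈ T ↔ t ∈ W ∧ Relation.ReflTransGen r t1 t := fun t => Finset.mem_filter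
  refine h.mod (T := T) (Finset.filter_subset _ _) ⟨v, hv, ?_⟩
    ⟨t1, (hT t1).2 ⟨h1W, Relation.ReflTransGen.refl⟩, t2,
      (hT t2).2 ⟨h2W, Relation.ReflTransGen.single ⟨h12, h2W, h2⟩⟩, h12⟩ ?_
  · intro hvT
    exact (hAn v ((hT v).1 hvT).2).x hc.vx
  · intro u huW huT
    by_cases hu : An G v x y z u
    · right
      intro t ht hut
      apply huT
      rw [hT]
      exact ⟨huW, ((hT t).1 ht).2.tail ⟨hut.symm, huW, hu⟩⟩
    · by_cases h3 : ∃ t ∈ T, G.Adj u t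
      · left
        obtain ⟨t, ht, hut⟩ := h3
        obtain ⟨l1, l2, hl, hl1, hl2, hll, hlt⟩ := att2 hf hc (hAn t ((hT t).1 ht).2) hut hu
        have step : ∀ a b, An G v x y z a → An G v x y z b → G.Adj a b → G.Adj u a →
            G.Adj u b := by
          intro a b ha hb hab hua
          by_contra hub
          have hbu : b ≠ u := by
            rintro rfl
            exact hu hb
          exact hf u l1 l2 a b hl1 hl2 hua hab hl (hlt a ha).2.2.1 (hlt a ha).2.2.2 hbu hll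
            (fun h => (hlt a ha).1 h.symm) (fun h => (hlt a ha).2.1 h.symm)
            (fun h => hub h.symm) (hlt b hb).1 (hlt b hb).2.1
        have hiff : ∀ t, Relation.ReflTransGen r t1 t → (G.Adj u t1 ↔ G.Adj u t) := by
          intro t ht
          induction ht with
          | refl => exact Iff.rfl
          | tail hb hbc ih =>
            rw [ih]
            exact ⟨step _ _ (hAn _ hb) hbc.2.2 hbc.1, step _ _ hbc.2.2 (hAn _ hb) hbc.1.symm⟩
        have hu1 : G.Adj u t1 := (hiff t ((hT t).1 ht).2).2 hut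
        intro s hs
        exact (hiff s ((hT s).1 hs).2).1 hu1
      · right
        push Not at h3
        exact h3

/-- the maximum size of a stable set in a neighbourhood is at most `m` -/
def Mx (G : SimpleGraph V) (W : Finset V) (m : ℕ) : Prop :=
  ∀ v ∈ W, ∀ Q ⊆ W, (∀ x ∈ Q, G.Adj v x) → Stb G Q → Q.card ≤ m

theorem Mx.no {m : ℕ} (hm : Mx G W m) {p : V} (hp : p ∈ W) {Q : Finset V} (hQ : Q ⊆ W)
    (hpQ : ∀ y ∈ Q, G.Adj p y) (hst : Stb G Q) (hcard : Q.card = m) {a : V} (ha : a ∈ W)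
    (haQ : a ∉ Q) (haQ' : ∀ y ∈ Q, ¬ G.Adj a y) (hpa : G.Adj p a) : False := by
  have h1 := hm p hp (insert a Q) (Finset.insert_subset ha hQ) (by
    intro x hx
    rcases Finset.mem_insert.1 hx with rfl | hx
    · exact hpa
    · exact hpQ x hx) (by
    intro x hx y hy hxy
    rcases Finset.mem_insert.1 hx with hx1 | hx1 <;>
      rcases Finset.mem_insert.1 hy with hy1 | hy1
    · rw [hx1, hy1] at hxy
      exact G.irrefl hxy
    · rw [hx1] at hxy
      exact haQ' y hy1 hxy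
    · rw [hy1] at hxy
      exact haQ' x hx1 hxy.symm
    · exact hst x hx1 y hy1 hxy)
  rw [Finset.card_insert_of_notMem haQ, hcard] at h1
  omega

theorem exists_third {Q : Finset V} (h : 3 ≤ Q.card) (y1 y2 : V) :
    ∃ y ∈ Q, y ≠ y1 ∧ y ≠ y2 := by
  have h1 : 0 < ((Q.erase y1).erase y2).card := by
    have h2 := Finset.pred_card_le_card_erase (s := Q) (a := y1)
    have h3 := Finset.pred_card_le_card_erase (s := Q.erase y1) (a := y2)
    omega
  obtain ⟨y, hy⟩ := Finset.card_pos.1 h1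
  rw [Finset.mem_erase, Finset.mem_erase] at hy
  exact ⟨y, hy.2.2, hy.2.1, hy.1⟩

theorem MC.claim2 (h : MC G k W) (hf : NoFork G) (h5 : NoC5 G) {m : ℕ} (hm3 : 3 ≤ m)
    (hm : Mx G W m) {v : V} (hv : v ∈ W) {Q : Finset V} (hQ : Q ⊆ W) (hvQ : ∀ x ∈ Q, G.Adj v x)
    (hst : Stb G Q) (hcard : Q.card = m) : ∃ (A : Finset V) (a x : V), A ⊆ W ∧
      G.IsClique (A : Set V) ∧ A.card + 1 = k ∧ a ∈ W ∧ (∀ p ∈ A, G.Adj a p) ∧ x ∈ Q ∧
      (∀ p ∈ A, ¬ G.Adj v p) ∧ ¬ G.Adj v a ∧ (∀ y ∈ Q, ¬ G.Adj a y) ∧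
      ∀ p ∈ A, ∀ y ∈ Q, y ≠ x → G.Adj p y := by
  obtain ⟨K, hKW, hK, hKc, hKv⟩ := h.star hv
  have hQne : Q.Nonempty := Finset.card_pos.1 (by omega)
  obtain ⟨z, hz, hzmax⟩ := Finset.exists_max_image Q
    (fun y => (K.filter (fun p => G.Adj y p)).card) hQne
  have hzz : ∀ y ∈ Q, ∀ p ∈ K, G.Adj y p → G.Adj z p := by
    intro y hy
    rcases nst h5 hK (fun p hp => (hKv p hp).2) (hvQ z hz) (hvQ y hy) (hst z hz y hy) with h1 | h1
    · have h2 : K.filter (fun p => G.Adj z p) ⊆ K.filter (fun p => G.Adj y p) := by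
        intro p hp
        rw [Finset.mem_filter] at hp ⊢
        exact ⟨hp.1, h1 p hp.1 hp.2⟩
      have h3 := Finset.eq_of_subset_of_card_le h2 (hzmax y hy)
      intro p hp hyp
      have h4 : p ∈ K.filter (fun p => G.Adj y p) := Finset.mem_filter.2 ⟨hp, hyp⟩
      rw [← h3] at h4
      exact (Finset.mem_filter.1 h4).2
    · exact h1
  obtain ⟨a, haK, hza⟩ := h.nfull (hQ hz) hKW hK hKc
  have haQ : ∀ y ∈ Q, ¬ G.Adj a y := fun y hy hay => hza (hzz y hy a haK hay.symm)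
  have haQ' : a ∉ Q := fun h1 => (hKv a haK).2 (hvQ a h1)
  have hap : ∀ p ∈ K.erase a, G.Adj a p := fun p hp =>
    hK haK (Finset.mem_erase.1 hp).2 (Finset.mem_erase.1 hp).1.symm
  have hpW : ∀ p ∈ K.erase a, p ∈ W := fun p hp => hKW (Finset.mem_erase.1 hp).2
  have hpv : ∀ p ∈ K.erase a, ¬ G.Adj v p := fun p hp => (hKv p (Finset.mem_erase.1 hp).2).2
  have htwo : ∀ p ∈ K.erase a, ∀ y1 ∈ Q, ∀ y2 ∈ Q, y1 ≠ y2 → G.Adj p y1 ∨ G.Adj p y2 := by
    intro p hp y1 hy1 y2 hy2 hne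
    obtain ⟨y3, hy3, h31, h32⟩ := exists_third (Q := Q) (by omega) y1 y2
    have hc : Claw G v y1 y2 y3 := ⟨hvQ y1 hy1, hvQ y2 hy2, hvQ y3 hy3, hne, h31.symm, h32.symm,
      hst _ hy1 _ hy2, hst _ hy1 _ hy3, hst _ hy2 _ hy3⟩
    have ha : An G v y1 y2 y3 a := ⟨fun h => (hKv a haK).2 h.symm, haQ _ hy1, haQ _ hy2, haQ _ hy3⟩
    by_cases hpn : An G v y1 y2 y3 p
    · exact absurd (hap p hp) fun h1 => h.stabM hf hv hc ha (hKW haK) hpn (hpW p hp) h1
    · exact (att hf hc ha (hap p hp).symm hpn).1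
  have hAc : (K.erase a).card + 1 = k := by
    rw [Finset.card_erase_of_mem haK, hKc]
    have := h.two
    omega
  by_cases hex : ∃ x ∈ Q, ∃ p ∈ K.erase a, ¬ G.Adj p x
  · obtain ⟨x, hx, p0, hp0, hp0x⟩ := hex
    refine ⟨K.erase a, a, x, (Finset.erase_subset _ _).trans hKW, hK.subset (by simp), hAc,
      hKW haK, hap, hx, hpv, (hKv a haK).2, haQ, ?_⟩
    intro p hp y hy hyx
    by_contra hpy
    have h1 : G.Adj p0 y := (htwo p0 hp0 x hx y hy hyx.symm).resolve_left hp0x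
    have h2 : G.Adj p x := (htwo p hp x hx y hy hyx.symm).resolve_right hpy
    rcases nst h5 hK (fun p hp => (hKv p hp).2) (hvQ x hx) (hvQ y hy) (hst x hx y hy) with h3 | h3
    · exact hpy (h3 p (Finset.mem_erase.1 hp).2 h2.symm).symm
    · exact hp0x (h3 p0 (Finset.mem_erase.1 hp0).2 h1.symm).symm
  · exfalso
    push Not at hex
    have h2 := h.two
    obtain ⟨p, hp⟩ := Finset.card_pos.1 (show 0 < (K.erase a).card by omega)
    exact hm.no (hpW p hp) hQ (fun y hy => hex y hy p hp) hst hcard (hKW haK) haQ' haQ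
      (hap p hp).symm

/-- the pairs `(A, U)` -/
structure PAU (G : SimpleGraph V) (k : ℕ) (W : Finset V) (m : ℕ) (A U : Finset V) : Prop where
  pAW : A ⊆ W
  pA : G.IsClique (A : Set V)
  pAc : A.card + 1 = k
  pUW : U ⊆ W
  pU : Stb G U
  pUc : U.card = m
  pAU : ∀ p ∈ A, ∀ u ∈ U, G.Adj p u

theorem MC.auS (h : MC G k W) (hf : NoFork G) {m : ℕ} {A U : Finset V}
    (hAU : PAU G k W m A U) {r : V} (hr : r ∈ W) (hrS : ∃ u ∈ U, G.Adj r u) {u1 u2 : V}
    (hu1 : u1 ∈ U) (hu2 : u2 ∈ U) (hne : u1 ≠ u2) : G.Adj r u1 ∨ G.Adj r u2 := by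
  by_contra hcon
  push Not at hcon
  obtain ⟨u0, hu0, hru0⟩ := hrS
  have h01 : u0 ≠ u1 := by
    rintro rfl
    exact hcon.1 hru0
  have h02 : u0 ≠ u2 := by
    rintro rfl
    exact hcon.2 hru0
  have hrA : r ∉ A := fun h1 => hcon.1 (hAU.pAU r h1 u1 hu1)
  by_cases hq : ∃ q ∈ A, ¬ G.Adj r q
  · obtain ⟨q, hq, hrq⟩ := hq
    have hne' : r ≠ q := by
      rintro rfl
      exact hrA hq
    exact hf q u1 u2 u0 r (hAU.pAU q hq u1 hu1) (hAU.pAU q hq u2 hu2) (hAU.pAU q hq u0 hu0)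
      hru0.symm hne h01.symm h02.symm hne' (hAU.pU _ hu1 _ hu2) (hAU.pU _ hu1 _ hu0)
      (hAU.pU _ hu2 _ hu0) hrq hcon.1 hcon.2
  · push Not at hq
    have h1 : ∀ p ∈ A, G.Adj u0 p := fun p hp => (hAU.pAU p hp u0 hu0).symm
    have h2 : G.IsClique ((insert u0 A : Finset V) : Set V) := cl_insert hAU.pA h1
    have h3 := h.ext_card hr (Finset.insert_subset (hAU.pUW hu0) hAU.pAW) h2 (by
      intro p hp
      rcases Finset.mem_insert.1 hp with rfl | hp
      · exact hru0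
      · exact hq p hp)
    rw [cl_card_insert h1] at h3
    have := hAU.pAc
    omega

theorem MC.stabS (h : MC G k W) (hf : NoFork G) {m : ℕ} (hm3 : 3 ≤ m) (hm : Mx G W m)
    {A U : Finset V} (hAU : PAU G k W m A U) {w1 w2 : V} (hw1 : w1 ∈ W) (hw2 : w2 ∈ W)
    (h1 : ∀ u ∈ U, ¬ G.Adj w1 u) (h2 : ∀ u ∈ U, ¬ G.Adj w2 u) (h12 : G.Adj w1 w2) : False := by
  have hw1U : w1 ∉ U := fun h3 => h2 w1 h3 h12.symm
  have hw2U : w2 ∉ U := fun h3 => h1 w2 h3 h12
  have hAc := hAU.pAc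
  have hk := h.two
  obtain ⟨q, hq⟩ := Finset.card_pos.1 (show 0 < A.card by omega)
  have hq1 : ¬ G.Adj q w1 := fun h3 => hm.no (hAU.pAW hq) hAU.pUW (hAU.pAU q hq) hAU.pU hAU.pUc hw1
    hw1U h1 h3
  have hq2 : ¬ G.Adj q w2 := fun h3 => hm.no (hAU.pAW hq) hAU.pUW (hAU.pAU q hq) hAU.pU hAU.pUc hw2
    hw2U h2 h3
  have hUc := hAU.pUc
  obtain ⟨u1, hu1⟩ := Finset.card_pos.1 (show 0 < U.card by omega)
  obtain ⟨u2, hu2, h21, -⟩ := exists_third (Q := U) (by omega) u1 u1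
  obtain ⟨u3, hu3, h31, h32⟩ := exists_third (Q := U) (by omega) u1 u2
  have hc : Claw G q u1 u2 u3 := ⟨hAU.pAU q hq u1 hu1, hAU.pAU q hq u2 hu2, hAU.pAU q hq u3 hu3,
    h21.symm, h31.symm, h32.symm, hAU.pU _ hu1 _ hu2, hAU.pU _ hu1 _ hu3, hAU.pU _ hu2 _ hu3⟩
  exact h.stabM hf (hAU.pAW hq) hc ⟨fun h => hq1 h.symm, h1 _ hu1, h1 _ hu2, h1 _ hu3⟩ hw1
    ⟨fun h => hq2 h.symm, h2 _ hu1, h2 _ hu2, h2 _ hu3⟩ hw2 h12

theorem MC.noAU (h : MC G k W) (hf : NoFork G) (h5 : NoC5 G) {m : ℕ} (hm3 : 3 ≤ m)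
    (hm : Mx G W m) {A U : Finset V} (hAU : PAU G k W m A U) : False := by
  have hk := h.two
  -- a clique outside `S`
  obtain ⟨D, hDW, hD, hDc, hDS⟩ : ∃ D ⊆ W, G.IsClique (D : Set V) ∧ D.card = k ∧
      ∀ d ∈ D, ∃ u ∈ U, G.Adj d u := by
    by_contra hcon
    push Not at hcon
    apply h.nodiv
    refine ⟨W.filter (fun w => ∀ u ∈ U, ¬ G.Adj w u), Finset.filter_subset _ _, ?_, ?_⟩
    · intro s hs hc
      by_contra hlt
      rw [not_lt] at hlt
      obtain ⟨a, ha, b, hb, hab⟩ := Finset.one_lt_card.1 (show 1 < s.card by omega)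
      have ha' := Finset.mem_filter.1 (hs ha)
      have hb' := Finset.mem_filter.1 (hs hb)
      exact h.stabS hf hm3 hm hAU ha'.1 hb'.1 ha'.2 hb'.2 (hc ha hb hab)
    · intro s hs hc
      have hsW : s ⊆ W := hs.trans Finset.sdiff_subset
      by_contra hlt
      obtain ⟨d, hd, hd'⟩ := hcon s hsW hc (le_antisymm (h.le s hsW hc) (not_lt.1 hlt))
      exact (Finset.mem_sdiff.1 (hs hd)).2 (Finset.mem_filter.2 ⟨hsW hd, hd'⟩)
  have hAc := hAU.pAc
  have hUc := hAU.pUc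
  obtain ⟨q, hq⟩ := Finset.card_pos.1 (show 0 < A.card by omega)
  obtain ⟨B, a', x', hBW, hB, hBc, ha'W, ha'B, hx', hqB, hqa', ha'U, hBU⟩ :=
    h.claim2 hf h5 hm3 hm (hAU.pAW hq) hAU.pUW (hAU.pAU q hq) hAU.pU hUc
  have ha'nU : a' ∉ U := fun h1 => hqa' (hAU.pAU q hq a' h1)
  have hBU' : PAU G k W m B (insert a' (U.erase x')) := by
    refine ⟨hBW, hB, hBc, Finset.insert_subset ha'W ((Finset.erase_subset _ _).trans hAU.pUW), ?_,
      ?_, ?_⟩
    · intro x hx y hy hxy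
      rcases Finset.mem_insert.1 hx with hx1 | hx1 <;>
        rcases Finset.mem_insert.1 hy with hy1 | hy1
      · rw [hx1, hy1] at hxy
        exact G.irrefl hxy
      · rw [hx1] at hxy
        exact ha'U y (Finset.mem_erase.1 hy1).2 hxy
      · rw [hy1] at hxy
        exact ha'U x (Finset.mem_erase.1 hx1).2 hxy.symm
      · exact hAU.pU x (Finset.mem_erase.1 hx1).2 y (Finset.mem_erase.1 hy1).2 hxy
    · rw [Finset.card_insert_of_notMem fun h1 => ha'nU (Finset.mem_erase.1 h1).2,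
        Finset.card_erase_of_mem hx', hUc]
      omega
    · intro p hp u hu
      rcases Finset.mem_insert.1 hu with rfl | hu
      · exact (ha'B p hp).symm
      · exact hBU p hp u (Finset.mem_erase.1 hu).2 (Finset.mem_erase.1 hu).1
  -- two elements of `U`
  obtain ⟨u1, hu1, h1x, -⟩ := exists_third (Q := U) (by omega) x' x'
  obtain ⟨u2, hu2, h2x, h21⟩ := exists_third (Q := U) (by omega) x' u1
  -- elements of `D` have neighbours in the new set
  have hDS' : ∀ d ∈ D, ∃ u ∈ insert a' (U.erase x'), G.Adj d u := by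
    intro d hd
    rcases h.auS hf hAU (hDW hd) (hDS d hd) hu1 hu2 h21.symm with h3 | h3
    · exact ⟨u1, Finset.mem_insert_of_mem (Finset.mem_erase.2 ⟨h1x, hu1⟩), h3⟩
    · exact ⟨u2, Finset.mem_insert_of_mem (Finset.mem_erase.2 ⟨h2x, hu2⟩), h3⟩
  -- the main step
  have key : ∀ u ∈ U, u ≠ x' → ∀ d ∈ D, ¬ G.Adj d u → ¬ G.Adj q d := by
    intro u hu hux d hd hdu hqd
    have hu' : u ∈ insert a' (U.erase x') :=
      Finset.mem_insert_of_mem (Finset.mem_erase.2 ⟨hux, hu⟩)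
    have hne : a' ≠ u := by
      rintro rfl
      exact ha'nU hu
    have hda' : G.Adj d a' :=
      (h.auS hf hBU' (hDW hd) (hDS' d hd) (Finset.mem_insert_self _ _) hu' hne).resolve_right hdu
    obtain ⟨b, hb, hdb⟩ : ∃ b ∈ B, ¬ G.Adj d b := by
      by_contra hcon
      push Not at hcon
      have h2 : G.IsClique ((insert a' B : Finset V) : Set V) := cl_insert hB ha'B
      have h3 := h.ext_card (hDW hd) (Finset.insert_subset ha'W hBW) h2 (by
        intro p hp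
        rcases Finset.mem_insert.1 hp with rfl | hp
        · exact hda'
        · exact hcon p hp)
      rw [cl_card_insert ha'B] at h3
      omega
    exact h5 b a' d q u (ha'B b hb).symm hda'.symm hqd.symm (hAU.pAU q hq u hu)
      (hBU b hb u hu hux).symm (fun h => hdb h.symm) (fun h => hqB b hb h.symm)
      (fun h => hqa' h.symm) (ha'U u hu) hdu
  obtain ⟨d1, hd1, hd1u⟩ := h.nfull (hAU.pUW hu1) hDW hD hDc
  obtain ⟨d2, hd2, hd2u⟩ := h.nfull (hAU.pUW hu2) hDW hD hDc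
  have h12 : G.Adj d1 u2 := (h.auS hf hAU (hDW hd1) (hDS d1 hd1) hu1 hu2 h21.symm).resolve_left
    fun h => hd1u h.symm
  have h21' : G.Adj d2 u1 := (h.auS hf hAU (hDW hd2) (hDS d2 hd2) hu1 hu2 h21.symm).resolve_right
    fun h => hd2u h.symm
  have hne : d1 ≠ d2 := by
    rintro rfl
    exact hd2u h12.symm
  exact h5 q u2 d1 d2 u1 (hAU.pAU q hq u2 hu2) h12.symm (hD hd1 hd2 hne) h21'
    (hAU.pAU q hq u1 hu1).symm (key u1 hu1 h1x d1 hd1 fun h => hd1u h.symm)
    (key u2 hu2 h2x d2 hd2 fun h => hd2u h.symm) hd2u (hAU.pU _ hu2 _ hu1)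
    (fun h => hd1u h.symm)

/-- a minimal counterexample without forks has no claw -/
theorem MC.noclaw_of_fork (h : MC G k W) (hf : NoFork G) (h5 : NoC5 G) {v x y z : V}
    (hv : v ∈ W) (hx : x ∈ W) (hy : y ∈ W) (hz : z ∈ W) (hc : Claw G v x y z) : False := by
  let P : Finset (V × Finset V) := (W ×ˢ W.powerset).filter
    (fun a => (∀ x ∈ a.2, G.Adj a.1 x) ∧ Stb G a.2)
  have hP : ∀ a, a ∈ P ↔ (a.1 ∈ W ∧ a.2 ⊆ W) ∧ (∀ x ∈ a.2, G.Adj a.1 x) ∧ Stb G a.2 := by
    intro a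
    rw [Finset.mem_filter, Finset.mem_product, Finset.mem_powerset]
  have h0 : (v, ({x, y, z} : Finset V)) ∈ P := by
    rw [hP]
    refine ⟨⟨hv, ?_⟩, ?_, ?_⟩
    · intro a ha
      simp only [Finset.mem_insert, Finset.mem_singleton] at ha
      rcases ha with rfl | rfl | rfl
      · exact hx
      · exact hy
      · exact hz
    · intro a ha
      simp only [Finset.mem_insert, Finset.mem_singleton] at ha
      rcases ha with rfl | rfl | rfl
      · exact hc.vx
      · exact hc.vy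
      · exact hc.vz
    · intro a ha b hb hab
      simp only [Finset.mem_insert, Finset.mem_singleton] at ha hb
      rcases ha with rfl | rfl | rfl <;> rcases hb with rfl | rfl | rfl
      · exact G.irrefl hab
      · exact hc.xy hab
      · exact hc.xz hab
      · exact hc.xy hab.symm
      · exact G.irrefl hab
      · exact hc.yz hab
      · exact hc.xz hab.symm
      · exact hc.yz hab.symm
      · exact G.irrefl hab
  obtain ⟨⟨v0, Q0⟩, h1, hmax⟩ := Finset.exists_max_image P (fun a => a.2.card) ⟨_, h0⟩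
  rw [hP] at h1
  have h3 : 3 ≤ Q0.card := by
    have h4 := hmax _ h0
    have h5 : ({x, y, z} : Finset V).card = 3 := Finset.card_eq_three.2
      ⟨x, y, z, hc.nxy, hc.nxz, hc.nyz, rfl⟩
    have h6 : ({x, y, z} : Finset V).card ≤ Q0.card := h4
    omega
  have hm : Mx G W Q0.card := by
    intro v hv Q hQ hvQ hst
    exact hmax (v, Q) ((hP _).2 ⟨⟨hv, hQ⟩, hvQ, hst⟩)
  obtain ⟨A, a, x', hAW, hA, hAc, haW, haA, hx', hvA, hva, haQ, hAQ⟩ :=
    h.claim2 hf h5 h3 hm h1.1.1 h1.1.2 h1.2.1 h1.2.2 rfl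
  have hanQ : a ∉ Q0 := fun h1' => hva (h1.2.1 a h1')
  refine h.noAU hf h5 h3 hm (A := A) (U := insert a (Q0.erase x')) ⟨hAW, hA, hAc,
    Finset.insert_subset haW ((Finset.erase_subset _ _).trans h1.1.2), ?_, ?_, ?_⟩
  · intro x hx y hy hxy
    rcases Finset.mem_insert.1 hx with hx1 | hx1 <;>
      rcases Finset.mem_insert.1 hy with hy1 | hy1
    · rw [hx1, hy1] at hxy
      exact G.irrefl hxy
    · rw [hx1] at hxy
      exact haQ y (Finset.mem_erase.1 hy1).2 hxy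
    · rw [hy1] at hxy
      exact haQ x (Finset.mem_erase.1 hx1).2 hxy.symm
    · exact h1.2.2 x (Finset.mem_erase.1 hx1).2 y (Finset.mem_erase.1 hy1).2 hxy
  · rw [Finset.card_insert_of_notMem fun h1' => hanQ (Finset.mem_erase.1 h1').2,
      Finset.card_erase_of_mem hx']
    show Q0.card - 1 + 1 = Q0.card
    omega
  · intro p hp u hu
    rcases Finset.mem_insert.1 hu with rfl | hu
    · exact (haA p hp).symm
    · exact hAQ p hp u (Finset.mem_erase.1 hu).2 (Finset.mem_erase.1 hu).1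

end HM89
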