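import Pool.Agent.W_2414c2_h89.Main

/-!
# MP_2414c2_co : odd-hole-free graphs without an induced (claw + vertex) are 2-divisible
-/

set_option autoImplicit false

namespace Pool.Agent.Results.MP_2414c2_co.ClawPlusVertex

/-- The disjoint union of a claw (centre `0`, leaves `1`, `2`, `3`) and a single vertex `4`. -/
def clawK1 : SimpleGraph (Fin 5) := SimpleGraph.fromEdgeSet {s(0, 1), s(0, 2), s(0, 3)}

/-- Every finite graph with at least one edge, no odd hole and no induced (claw + vertex) has a
2-colouring of its vertices in which no maximum clique is monochromatic. -/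
theorem result : ∀ (V : Type*) [Fintype V] (G : SimpleGraph V),
    (∃ u v : V, G.Adj u v) →
    (∀ k : ℕ, 2 ≤ k → IsEmpty (SimpleGraph.cycleGraph (2 * k + 1) ↪g G)) →
    IsEmpty (clawK1 ↪g G) →
    ∃ c : V → Bool, ∀ s : Finset V,
      G.IsClique (s : Set V) →
      (∀ t : Finset V, G.IsClique (t : Set V) → t.card ≤ s.card) →
      ∃ x ∈ s, ∃ y ∈ s, c x ≠ c y := by
  intro V _ G hedge hodd hH
  have hf : HM89.NoClawK1 G := by
    intro v x y z w hc ha
    obtain ⟨hvx, hvy, hvz, hxy, hxz, hyz, nxy, nxz, nyz⟩ := hc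
    obtain ⟨nwv, nwx, nwy, nwz⟩ := ha
    have hwv : w ≠ v := by
      rintro rfl
      exact nwx hvx
    have hwx : w ≠ x := by
      rintro rfl
      exact nwv hvx.symm
    have hwy : w ≠ y := by
      rintro rfl
      exact nwv hvy.symm
    have hwz : w ≠ z := by
      rintro rfl
      exact nwv hvz.symm
    refine hH.false ⟨⟨![v, x, y, z, w], ?_⟩, ?_⟩
    · intro a b hab
      fin_cases a <;> fin_cases b <;> first
        | rfl
        | (exfalso; revert hab; simp [hvx.ne, hvx.ne', hvy.ne, hvy.ne', hvz.ne, hvz.ne', hwz,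
            hwz.symm, hxy, hxy.symm, hxz, hxz.symm, hyz, hyz.symm, hwv, hwv.symm, hwx, hwx.symm,
            hwy, hwy.symm])
    · intro a b
      have e1 : ¬ G.Adj y x := fun h => nxy h.symm
      have e2 : ¬ G.Adj z x := fun h => nxz h.symm
      have e3 : ¬ G.Adj z y := fun h => nyz h.symm
      have e4 : ¬ G.Adj v w := fun h => nwv h.symm
      have e5 : ¬ G.Adj x w := fun h => nwx h.symm
      have e6 : ¬ G.Adj y w := fun h => nwy h.symm
      have e7 : ¬ G.Adj z w := fun h => nwz h.symm
      show G.Adj (![v, x, y, z, w] a) (![v, x, y, z, w] b) ↔ _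
      fin_cases a <;> fin_cases b <;>
        simp [clawK1, hvx, hvx.symm, hvy, hvy.symm, hvz, hvz.symm, nxy, nxz, nyz,
          nwv, nwx, nwy, nwz, e1, e2, e3, e4, e5, e6, e7]
  exact HM89.final hedge (HM89.good hodd (Or.inr hf))

end Pool.Agent.Results.MP_2414c2_co.ClawPlusVertex
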