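import Pool.Agent.W_2414c2_h89.Anti

/-!
# MP_2414c2_co : there is no claw-free minimal counterexample
-/

set_option autoImplicit false

open Finset
open scoped Classical

namespace HM89

variable {V : Type*} {G : SimpleGraph V} {k : ℕ} {W : Finset V}

/-- no odd holes -/
def NoOH (G : SimpleGraph V) : Prop :=
  ∀ k : ℕ, 2 ≤ k → IsEmpty (SimpleGraph.cycleGraph (2 * k + 1) ↪g G)

/-- `f` divides `W` without the vertex `v` -/
structure St (G : SimpleGraph V) (k : ℕ) (W : Finset V) (v : V) (f : V → Bool) : Prop where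
  mem : v ∈ W
  fr : ∀ b, Fr G k ((W.erase v).filter fun x => f x = b)

/-- neighbours of colour `b` -/
noncomputable def Nb (G : SimpleGraph V) (W : Finset V) (v : V) (f : V → Bool) (b : Bool) :
    Finset V := W.filter fun x => G.Adj v x ∧ f x = b

theorem mem_Nb {v : V} {f : V → Bool} {b : Bool} {x : V} :
    x ∈ Nb G W v f b ↔ x ∈ W ∧ G.Adj v x ∧ f x = b := by
  unfold Nb
  rw [Finset.mem_filter]

theorem MC.deg (h : MC G k W) {v : V} (hv : v ∈ W) (hg : ∃ g : V → Bool, ∀ x ∈ W, ∀ y ∈ W,
    G.Adj v x → G.Adj v y → x ≠ y → g x = g y → G.Adj x y) (f : V → Bool) :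
    (Nb G W v f true).card + (Nb G W v f false).card ≤ 2 * (k - 1) := by
  obtain ⟨g, hg⟩ := hg
  have key : ∀ f' : V → Bool, (Nb G W v f' true).card + (Nb G W v f' false).card =
      (W.filter fun x => G.Adj v x).card := by
    intro f'
    rw [← Finset.card_union_of_disjoint]
    · congr 1
      ext x
      rw [Finset.mem_union, mem_Nb, mem_Nb, Finset.mem_filter]
      cases f' x <;> simp
    · rw [Finset.disjoint_left]
      intro x hx hx'
      rw [mem_Nb] at hx hx'
      rw [hx.2.2] at hx'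
      exact absurd hx'.2.2 (by decide)
  rw [key f, ← key g]
  have hb : ∀ b, (Nb G W v g b).card + 1 ≤ k := by
    intro b
    apply h.ext_card hv
    · intro x hx
      exact (mem_Nb.1 hx).1
    · intro x hx y hy hxy
      rw [Finset.mem_coe, mem_Nb] at hx hy
      exact hg x hx.1 y hy.1 hx.2.1 hy.2.1 hxy (hx.2.2.trans hy.2.2.symm)
    · intro x hx
      exact (mem_Nb.1 hx).2.1
  have h1 := hb true
  have h2 := hb false
  omega

theorem MC.st (h : MC G k W) {v : V} (hv : v ∈ W) : ∃ f, St G k W v f := by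
  obtain ⟨X, hX, h1, h2⟩ := h.min (W.erase v) (Finset.erase_ssubset hv) k h.two
    fun s hs hc => h.le s (hs.trans (Finset.erase_subset _ _)) hc
  refine ⟨fun x => decide (x ∈ X), hv, ?_⟩
  intro b s hs hc
  cases b
  · apply h2 s _ hc
    intro x hx
    have h3 := Finset.mem_filter.1 (hs hx)
    rw [decide_eq_false_iff_not] at h3
    exact Finset.mem_sdiff.2 h3
  · apply h1 s _ hc
    intro x hx
    have h3 := Finset.mem_filter.1 (hs hx)
    rw [decide_eq_true_iff] at h3
    exact h3.2

theorem MC.ll1 (h : MC G k W) {v : V} {f : V → Bool} (hs : St G k W v f) (b : Bool) :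
    ∃ s ⊆ Nb G W v f b, G.IsClique (s : Set V) ∧ k - 1 ≤ s.card := by
  by_contra hcon
  push Not at hcon
  apply h.nodiv
  refine ⟨insert v ((W.erase v).filter fun x => f x = b), ?_, ?_, ?_⟩
  · apply Finset.insert_subset hs.mem
    exact (Finset.filter_subset _ _).trans (Finset.erase_subset _ _)
  · intro s hsub hc
    by_cases hv : v ∈ s
    · have h1 := hcon (s.erase v) (by
        intro x hx
        rw [Finset.mem_erase] at hx
        have h2 := (Finset.mem_insert.1 (hsub hx.2)).resolve_left hx.1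
        rw [Finset.mem_filter, Finset.mem_erase] at h2
        exact mem_Nb.2 ⟨h2.1.2, hc hv hx.2 (Ne.symm hx.1), h2.2⟩)
        (hc.subset (by
          rw [Finset.coe_subset]
          exact Finset.erase_subset _ _))
      rw [Finset.card_erase_of_mem hv] at h1
      omega
    · apply hs.fr b s _ hc
      intro x hx
      rcases Finset.mem_insert.1 (hsub hx) with h1 | h1
      · rw [h1] at hx
        exact absurd hx hv
      · exact h1
  · intro s hsub hc
    apply hs.fr (!b) s _ hc
    intro x hx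
    have h1 := hsub hx
    rw [Finset.mem_sdiff, Finset.mem_insert, Finset.mem_filter, Finset.mem_erase] at h1
    push Not at h1
    rw [Finset.mem_filter, Finset.mem_erase]
    refine ⟨⟨h1.2.1, h1.1⟩, ?_⟩
    have h2 := h1.2.2 ⟨h1.2.1, h1.1⟩
    revert h2
    cases f x <;> cases b <;> simp

/-- the local structure -/
theorem MC.ll (h : MC G k W) (hd : ∀ v ∈ W, ∀ f,
    (Nb G W v f true).card + (Nb G W v f false).card ≤ 2 * (k - 1))
    {v : V} {f : V → Bool} (hs : St G k W v f) (b : Bool) :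
    G.IsClique (Nb G W v f b : Set V) ∧ (Nb G W v f b).card = k - 1 := by
  have h1 := hd v hs.mem f
  have h2 : ∀ b, k - 1 ≤ (Nb G W v f b).card := by
    intro b
    obtain ⟨s, hs1, _, hs3⟩ := h.ll1 hs b
    exact hs3.trans (Finset.card_le_card hs1)
  have h3 := h2 true
  have h4 := h2 false
  have h5 : (Nb G W v f b).card = k - 1 := by
    cases b <;> omega
  obtain ⟨s, hs1, hs2, hs3⟩ := h.ll1 hs b
  have h6 : s = Nb G W v f b := Finset.eq_of_subset_of_card_le hs1 (by omega)
  rw [← h6]
  exact ⟨hs2, by rw [h6]; exact h5⟩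

theorem MC.shift (h : MC G k W) (hd : ∀ v ∈ W, ∀ f,
    (Nb G W v f true).card + (Nb G W v f false).card ≤ 2 * (k - 1))
    {v c : V} {f : V → Bool} {b : Bool} (hs : St G k W v f) (hc : c ∈ Nb G W v f b) :
    St G k W c (Function.update f v b) := by
  have hc' := mem_Nb.1 hc
  refine ⟨hc'.1, ?_⟩
  intro b' s hsub hcl
  by_cases hv : v ∈ s
  · have h1 := hsub hv
    rw [Finset.mem_filter, Function.update_self] at h1
    have hbb := h1.2
    subst hbb
    have h2 : s.erase v ⊆ (Nb G W v f b).erase c := by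
      intro x hx
      rw [Finset.mem_erase] at hx
      have h3 := hsub hx.2
      rw [Finset.mem_filter, Finset.mem_erase, Function.update_of_ne hx.1] at h3
      exact Finset.mem_erase.2 ⟨h3.1.1, mem_Nb.2 ⟨h3.1.2, hcl hv hx.2 (Ne.symm hx.1), h3.2⟩⟩
    have h3 := Finset.card_le_card h2
    rw [Finset.card_erase_of_mem hv, Finset.card_erase_of_mem hc, (h.ll hd hs b).2] at h3
    have h4 := h.two
    omega
  · apply hs.fr b' s _ hcl
    intro x hx
    have h3 := hsub hx
    have hxv : x ≠ v := by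
      rintro rfl
      exact hv hx
    rw [Finset.mem_filter, Finset.mem_erase, Function.update_of_ne hxv] at h3
    exact Finset.mem_filter.2 ⟨Finset.mem_erase.2 ⟨hxv, h3.1.2⟩, h3.2⟩

theorem MC.Nb_shift (h : MC G k W) (hd : ∀ v ∈ W, ∀ f,
    (Nb G W v f true).card + (Nb G W v f false).card ≤ 2 * (k - 1))
    {v c : V} {f : V → Bool} {b : Bool} (hs : St G k W v f) (hc : c ∈ Nb G W v f b) :
    Nb G W c (Function.update f v b) b = insert v ((Nb G W v f b).erase c) := by
  have hc' := mem_Nb.1 hc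
  symm
  apply Finset.eq_of_subset_of_card_le
  · intro x hx
    rw [Finset.mem_insert, Finset.mem_erase] at hx
    rcases hx with rfl | ⟨h1, h2⟩
    · exact mem_Nb.2 ⟨hs.mem, hc'.2.1.symm, Function.update_self ..⟩
    · have h3 := mem_Nb.1 h2
      have hxv : x ≠ v := by
        rintro rfl
        exact G.irrefl h3.2.1
      refine mem_Nb.2 ⟨h3.1, (h.ll hd hs b).1 hc h2 (Ne.symm h1), ?_⟩
      rw [Function.update_of_ne hxv]
      exact h3.2.2
  · rw [(h.ll hd (h.shift hd hs hc) b).2, Finset.card_insert_of_notMem, Finset.card_erase_of_mem hc,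
      (h.ll hd hs b).2]
    · have := h.two
      omega
    · rw [Finset.mem_erase]
      rintro ⟨_, h1⟩
      exact G.irrefl (mem_Nb.1 h1).2.1

/-- the two halves of the neighbourhood are anticomplete -/
theorem MC.anti (h : MC G k W) (hd : ∀ v ∈ W, ∀ f,
    (Nb G W v f true).card + (Nb G W v f false).card ≤ 2 * (k - 1))
    {v x y : V} {f : V → Bool} {b : Bool} (hs : St G k W v f) (hx : x ∈ Nb G W v f b)
    (hy : y ∈ Nb G W v f (!b)) : ¬ G.Adj x y := by
  intro hadj
  have hx' := mem_Nb.1 hx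
  have hy' := mem_Nb.1 hy
  have hyv : y ≠ v := by
    rintro rfl
    exact G.irrefl hy'.2.1
  have hxv : x ≠ v := by
    rintro rfl
    exact G.irrefl hx'.2.1
  have hs1 := h.shift hd hs hx
  have hy1 : y ∈ Nb G W x (Function.update f v b) (!b) := by
    refine mem_Nb.2 ⟨hy'.1, hadj, ?_⟩
    rw [Function.update_of_ne hyv]
    exact hy'.2.2
  have hs2 := h.shift hd hs1 hy1
  obtain ⟨h1, h2⟩ := h.ll hd hs2 b
  -- the neighbours of `y` of colour `b`
  have hv2 : v ∈ Nb G W y (Function.update (Function.update f v b) x (!b)) b := by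
    refine mem_Nb.2 ⟨hs.mem, hy'.2.1.symm, ?_⟩
    rw [Function.update_of_ne (Ne.symm hxv), Function.update_self]
  have hsub : (Nb G W y (Function.update (Function.update f v b) x (!b)) b).erase v ⊆
      (Nb G W v f b).erase x := by
    intro z hz
    rw [Finset.mem_erase] at hz
    have hz' := mem_Nb.1 hz.2
    have hzx : z ≠ x := by
      rintro rfl
      rw [Function.update_self] at hz'
      have := hz'.2.2
      revert this
      cases b <;> simp
    rw [Finset.mem_erase]
    refine ⟨hzx, mem_Nb.2 ⟨hz'.1, h1 hv2 hz.2 (Ne.symm hz.1), ?_⟩⟩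
    have := hz'.2.2
    rwa [Function.update_of_ne hzx, Function.update_of_ne hz.1] at this
  have heq := Finset.eq_of_subset_of_card_le hsub (by
    rw [Finset.card_erase_of_mem hx, Finset.card_erase_of_mem hv2, h2, (h.ll hd hs b).2])
  have hyall : ∀ z ∈ Nb G W v f b, G.Adj y z := by
    intro z hz
    by_cases hzx : z = x
    · rw [hzx]
      exact hadj.symm
    · have h3 : z ∈ (Nb G W v f b).erase x := Finset.mem_erase.2 ⟨hzx, hz⟩
      rw [← heq] at h3
      exact (mem_Nb.1 (Finset.mem_erase.1 h3).2).2.1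
  have h4 : G.IsClique ((insert v (Nb G W v f b) : Finset V) : Set V) :=
    cl_insert (h.ll hd hs b).1 fun p hp => (mem_Nb.1 hp).2.1
  have h5 := h.ext_card hy'.1 (s := insert v (Nb G W v f b)) (by
    apply Finset.insert_subset hs.mem
    intro z hz
    exact (mem_Nb.1 hz).1) h4 (by
    intro p hp
    rw [Finset.mem_insert] at hp
    rcases hp with rfl | hp
    · exact hy'.2.1.symm
    · exact hyall p hp)
  rw [cl_card_insert (fun p hp => (mem_Nb.1 hp).2.1), (h.ll hd hs b).2] at h5
  have := h.two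
  omega

/-- the alternating walk -/
theorem MC.walk (h : MC G k W) (hd : ∀ v ∈ W, ∀ f,
    (Nb G W v f true).card + (Nb G W v f false).card ≤ 2 * (k - 1))
    {v : V} {f : V → Bool} (hs : St G k W v f) : ∃ (w : ℕ → V) (g : ℕ → V → Bool),
    (∀ n, St G k W (w n) (g n)) ∧ (∀ n, w (n + 1) ∈ Nb G W (w n) (g n) n.bodd) ∧
    ∀ n, g (n + 1) = Function.update (g n) (w n) n.bodd := by
  have hne : ∀ (n : ℕ) (p : {p : V × (V → Bool) // St G k W p.1 p.2}),
      ∃ c, c ∈ Nb G W p.1.1 p.1.2 n.bodd := by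
    intro n p
    have h1 := (h.ll hd p.2 n.bodd).2
    have h2 := h.two
    have h3 : 0 < (Nb G W p.1.1 p.1.2 n.bodd).card := by omega
    exact Finset.card_pos.1 h3
  choose c hc using hne
  let q : ℕ → {p : V × (V → Bool) // St G k W p.1 p.2} := fun n =>
    Nat.rec ⟨(v, f), hs⟩ (fun n p => ⟨(c n p, Function.update p.1.2 p.1.1 n.bodd),
      h.shift hd p.2 (hc n p)⟩) n
  exact ⟨fun n => (q n).1.1, fun n => (q n).1.2, fun n => (q n).2, fun n => hc n (q n),
    fun n => rfl⟩

/-- from a sequence to an odd hole -/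
theorem hole_emb (hG : NoOH G) {w : ℕ → V} {n : ℕ} (hn : 2 ≤ n)
    (h1 : ∀ i, i < 2 * n → G.Adj (w i) (w (i + 1))) (h0 : G.Adj (w 0) (w (2 * n)))
    (h2 : ∀ i j, i + 2 ≤ j → j ≤ 2 * n → (i = 0 → j ≠ 2 * n) →
      w i ≠ w j ∧ ¬ G.Adj (w i) (w j)) : False := by
  have hlt : ∀ i j, i < j → j ≤ 2 * n → w i ≠ w j ∧
      (G.Adj (w i) (w j) ↔ (j = i + 1 ∨ (i = 0 ∧ j = 2 * n))) := by
    intro i j hij hj
    by_cases h3 : j = i + 1
    · subst h3
      have h4 := h1 i (by omega)
      exact ⟨h4.ne, by simp [h4]⟩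
    · by_cases h4 : i = 0 ∧ j = 2 * n
      · obtain ⟨rfl, rfl⟩ := h4
        exact ⟨h0.ne, by simp [h0]⟩
      · obtain ⟨h5, h6⟩ := h2 i j (by omega) hj (fun h7 h8 => h4 ⟨h7, h8⟩)
        refine ⟨h5, ?_⟩
        tauto
  refine (hG n hn).false ⟨⟨fun i => w i.1, ?_⟩, ?_⟩
  · intro a b hab
    by_contra hne
    rcases Nat.lt_or_ge a.1 b.1 with h3 | h3
    · exact (hlt a.1 b.1 h3 (by omega)).1 hab
    · have h4 : a.1 ≠ b.1 := fun h5 => hne (Fin.ext h5)
      exact (hlt b.1 a.1 (by omega) (by omega)).1 hab.symm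
  · intro a b
    show G.Adj (w a.1) (w b.1) ↔ _
    rw [SimpleGraph.cycleGraph_adj']
    rcases lt_trichotomy a.1 b.1 with h3 | h3 | h3
    · rw [(hlt a.1 b.1 h3 (by omega)).2]
      have e1 : (↑(b - a) : ℕ) = b - a := Fin.coe_sub_iff_le.2 (by
        rw [Fin.le_def]; omega)
      have e2 : (↑(a - b) : ℕ) = 2 * n + 1 + a - b := Fin.coe_sub_iff_lt.2 (by
        rw [Fin.lt_def]; omega)
      rw [e1, e2]
      omega
    · have h4 : a = b := Fin.ext h3
      subst h4
      simp
    · rw [SimpleGraph.adj_comm, (hlt b.1 a.1 h3 (by omega)).2]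
      have e1 : (↑(a - b) : ℕ) = a - b := Fin.coe_sub_iff_le.2 (by
        rw [Fin.le_def]; omega)
      have e2 : (↑(b - a) : ℕ) = 2 * n + 1 + b - a := Fin.coe_sub_iff_lt.2 (by
        rw [Fin.lt_def]; omega)
      rw [e1, e2]
      omega

theorem noC5_of_noOH (hG : NoOH G) : NoC5 G := by
  intro a b c d e hab hbc hcd hde hea hac had hbd hbe hce
  let w : ℕ → V := fun n => match n with
    | 0 => a
    | 1 => b
    | 2 => c
    | 3 => d
    | _ => e
  refine hole_emb hG (w := w) (n := 2) le_rfl ?_ hea.symm ?_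
  · intro i hi
    interval_cases i
    · exact hab
    · exact hbc
    · exact hcd
    · exact hde
  · intro i j hij hj hij0
    have hi : i ≤ 2 := by omega
    have nn : ∀ {x y z : V}, G.Adj x z → ¬ G.Adj y z → x ≠ y := by
      rintro x y z h1 h2 rfl
      exact h2 h1
    interval_cases i
    · interval_cases j
      · exact ⟨nn hea.symm (fun h => hce h), hac⟩
      · exact ⟨nn hab (fun h => hbd h.symm), had⟩
      · exact absurd rfl (hij0 rfl)
    · interval_cases j
      · exact ⟨nn hab.symm (fun h => had h.symm), hbd⟩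
      · exact ⟨nn hbc (fun h => hce h.symm), hbe⟩
    · interval_cases j
      exact ⟨nn hbc.symm (fun h => hbe h.symm), hce⟩

end HM89
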